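import Pool.Agent.H502Z.Vec.Defs

set_option autoImplicit false

namespace Pool.Agent.H502Z.Vec

variable {F : Type} [Field F]

/-- A block subspace: the span of a sequence of nonzero vectors with successive supports. -/
def IsBlockSub (X : Submodule F (ℕ →₀ F)) : Prop :=
  ∃ x : ℕ → ℕ →₀ F, (∀ n, x n ≠ 0) ∧
    (∀ n, ∀ i ∈ (x n).support, ∀ j ∈ (x (n + 1)).support, i < j) ∧
    X = Submodule.span F (Set.range x)

/-- A mad family of block subspaces: pairwise almost disjoint block subspaces such that no block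
subspace is almost disjoint from every member. -/
def IsMadBlock (𝒜 : Set (Submodule F (ℕ →₀ F))) : Prop :=
  (∀ X ∈ 𝒜, IsBlockSub X) ∧
  (∀ X ∈ 𝒜, ∀ Y ∈ 𝒜, X ≠ Y → FiniteDimensional F (X ⊓ Y : Submodule F (ℕ →₀ F))) ∧
  ¬ ∃ Z, IsBlockSub Z ∧ ∀ X ∈ 𝒜, FiniteDimensional F (X ⊓ Z : Submodule F (ℕ →₀ F))

end Pool.Agent.H502Z.Vec
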