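import Pool.Agent.H502Z.Vec.Main
import Pool.Agent.H502Z.Vec.BlockDefs

set_option autoImplicit false

namespace Pool.Agent.H502Z.Vec

open Classical

variable {F : Type} [Field F]

theorem IsBlockSub.not_fd {X : Submodule F (ℕ →₀ F)} (h : IsBlockSub X) :
    ¬ FiniteDimensional F X := by
  obtain ⟨x, h1, h2, rfl⟩ := h
  have hm : StrictMono fun n => lst (x n) := strictMono_nat_of_lt_succ fun n =>
    h2 n _ (Finsupp.mem_support_iff.2 (lst_ne (h1 n))) _
      (Finsupp.mem_support_iff.2 (lst_ne (h1 (n + 1))))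
  exact Vec.not_fd fun N => ⟨x N, Submodule.subset_span ⟨N, rfl⟩, h1 N, hm.id_le N⟩

variable [Countable F]

theorem Chain.block {q : ℕ → ℕ →₀ F} (h : Chain q) : IsBlockSub (Y q) := by
  let L : ℕ → Prop := fun n => ∃ w ∈ Y q, w ≠ 0 ∧ lst w = n
  have hL : (Set.ofPred L).Infinite := by
    refine Set.infinite_of_not_bddAbove ?_
    rintro ⟨N, hN⟩
    obtain ⟨w, a1, a2, a3⟩ := exists_late h.not_fd (N + 1)
    have := hN ⟨w, a1, a2, rfl⟩
    have := fst_le_lst a2
    omega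
  have hp : ∀ n, L n → ∃ p ∈ Y q, p ≠ 0 ∧ lst p = n ∧
      ∀ r ∈ Y q, r ≠ 0 → lst r < n → lst r < fst p := by
    rintro n ⟨w, a1, a2, a3⟩
    obtain ⟨a, ha⟩ := h.mem.1 a1
    obtain ⟨p, b1, b2⟩ := exists_rep (h.1 a) ha a2
    refine ⟨p, h.mem.2 ⟨a, anc_mem b1⟩, b2.1.ne, b2.lst.2 ▸ a3, fun r hr hr0 hlt => ?_⟩
    obtain ⟨b, hb⟩ := h.mem.1 hr
    obtain ⟨p', c1, c2⟩ := exists_rep (h.1 _) (h.mono.monotone (le_max_left a b) ha) a2
    obtain ⟨o, c3, c4⟩ := c2.unique b2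
    have c5 := mem_H_of_lt (h.1 _) c1 (h.mono.monotone (le_max_right a b) hb)
      (by rw [← c2.lst.2, a3]; exact hlt)
    rw [H_congr c3 c4] at c5
    by_contra hle
    exact lst_ne hr0 (b2.1.below c5 (not_lt.1 hle))
  choose! p hp1 hp2 hp3 hp4 using hp
  have hn : ∀ k, L (Nat.nth L k) := fun k => Nat.nth_mem_of_infinite hL k
  refine ⟨fun k => p (Nat.nth L k), fun k => hp2 _ (hn k), fun k i hi j hj => ?_,
    le_antisymm (fun w hw => ?_) (Submodule.span_le.2 ?_)⟩
  · have a1 := hp4 _ (hn (k + 1)) _ (hp1 _ (hn k)) (hp2 _ (hn k)) (by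
      rw [hp3 _ (hn k)]
      exact Nat.nth_strictMono hL (Nat.lt_succ_self k))
    exact ((le_lst (Finsupp.mem_support_iff.1 hi)).trans_lt a1).trans_le
      (fst_le (Finsupp.mem_support_iff.1 hj))
  · induction hl : lst w using Nat.strong_induction_on generalizing w with
    | _ n ih =>
      by_cases hw0 : w = 0
      · rw [hw0]
        exact Submodule.zero_mem _
      have hLn : L n := ⟨w, hw, hw0, hl⟩
      have a1 : p n ∈ Submodule.span F (Set.range fun k => p (Nat.nth L k)) :=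
        Submodule.subset_span ⟨Nat.count L n, by simp only [Nat.nth_count hLn]⟩
      have a2 : p n n ≠ 0 := by
        have := lst_ne (hp2 n hLn)
        rwa [hp3 n hLn] at this
      have a3 : w - (w n / p n n) • p n ∈
          Submodule.span F (Set.range fun k => p (Nat.nth L k)) := by
        by_cases h0 : w - (w n / p n n) • p n = 0
        · rw [h0]
          exact Submodule.zero_mem _
        refine ih _ ?_ _ ((Y q).sub_mem hw ((Y q).smul_mem _ (hp1 n hLn))) rfl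
        by_contra hle
        refine lst_ne h0 ?_
        rcases (not_lt.1 hle).lt_or_eq with e | e
        · rw [Finsupp.sub_apply, Finsupp.smul_apply, zero_of_lst_lt (v := w) (hl.trans_lt e),
            zero_of_lst_lt (v := p n) ((hp3 n hLn).trans_lt e)]
          simp
        · rw [← e, Finsupp.sub_apply, Finsupp.smul_apply, smul_eq_mul, div_mul_cancel₀ _ a2,
            sub_self]
      simpa using Submodule.add_mem _ a3 (Submodule.smul_mem _ (w n / p n n) a1)
  · rintro _ ⟨k, rfl⟩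
    exact hp1 _ (hn k)

theorem main_block (hc : Nat.card F ≠ 2) :
    ∃ 𝒜 : Set (Submodule F (ℕ →₀ F)), 𝒜.Infinite ∧ IsMadBlock 𝒜 ∧
      MeasureTheory.AnalyticSet (chi '' 𝒜) := by
  obtain ⟨θ, h0, h1⟩ : ∃ θ : F, θ ≠ 0 ∧ θ ≠ 1 := by
    by_contra h
    push Not at h
    exact hc ((Nat.card_eq_two_iff' (0 : F)).2 ⟨1, one_ne_zero, h⟩)
  refine ⟨{y | ∃ q, Chain q ∧ Y q = y}, infinite_fam h0 h1, ⟨?_, (mad_fam h0 h1).1.2, ?_⟩,
    analytic_fam⟩
  · rintro _ ⟨q, hq, rfl⟩
    exact hq.block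
  · rintro ⟨Z, hZ, h⟩
    obtain ⟨q, hq, h'⟩ := maximal h0 h1 hZ.not_fd
    exact h' (h _ ⟨q, hq, rfl⟩)

end Pool.Agent.H502Z.Vec
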