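import Mathlib

set_option autoImplicit false

namespace Pool.Agent.H502Z.Vec

variable {F E : Type} [Field F] [AddCommGroup E] [Module F E]

open Classical in
/-- The characteristic function of a subspace, a point of `2^E`. -/
noncomputable def chi (X : Submodule F E) : E → Bool := fun v => decide (v ∈ X)

/-- An almost disjoint family of subspaces: its members are infinite-dimensional and distinct
members have finite-dimensional intersection. -/
def IsADSub (𝒜 : Set (Submodule F E)) : Prop :=
  (∀ X ∈ 𝒜, ¬ FiniteDimensional F X) ∧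
    ∀ X ∈ 𝒜, ∀ Y ∈ 𝒜, X ≠ Y → FiniteDimensional F (X ⊓ Y : Submodule F E)

/-- A mad family of subspaces: almost disjoint, and not properly contained in an almost disjoint
family of subspaces. -/
def IsMadSub (𝒜 : Set (Submodule F E)) : Prop :=
  IsADSub 𝒜 ∧ ∀ ℬ : Set (Submodule F E), IsADSub ℬ → 𝒜 ⊆ ℬ → ℬ = 𝒜

end Pool.Agent.H502Z.Vec
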