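import Pool.Agent.H502Z.Vec.Tree

set_option autoImplicit false

namespace Pool.Agent.H502Z.Vec

open Classical

variable {F : Type} [Field F] [Countable F]

theorem Adm.not_mem {p w : ℕ →₀ F} (hp : Adm p) (hw : w ≠ 0) (h : lst w = lst p) : w ∉ H p :=
  fun hm => lst_ne hw (hp.below hm (h ▸ fst_le_lst hp.ne))

theorem caught {X : Submodule F (ℕ →₀ F)} {z : ℕ → ℕ →₀ F} (hz : ∀ a, z a ∈ X)
    (hz0 : ∀ a, z a ≠ 0) (hm : StrictMono fun a => lst (z a))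
    (h : ∀ a b, a < b → ∃ t, Adm t ∧ z a ∈ H t ∧ z b ∈ H t) :
    ∃ q, Chain q ∧ ¬ FiniteDimensional F (Y q ⊓ X : Submodule F (ℕ →₀ F)) := by
  have h1 : ∀ a, ∃ p, Rep (z a) p := fun a => by
    obtain ⟨t, a1, a2, -⟩ := h a (a + 1) (Nat.lt_succ_self a)
    obtain ⟨p, -, a3⟩ := exists_rep a1 a2 (hz0 a)
    exact ⟨p, a3⟩
  choose p hp using h1
  have h2 : ∀ a, z a ∈ H (p (a + 1)) ∧ H (p a) ≤ H (p (a + 1)) := fun a => by
    obtain ⟨t, a1, a2, a3⟩ := h a (a + 1) (Nat.lt_succ_self a)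
    obtain ⟨r, b1, b2⟩ := exists_rep a1 a2 (hz0 a)
    obtain ⟨r', b3, b4⟩ := exists_rep a1 a3 (hz0 _)
    have b5 : Anc r r' := anc_of_lt a1 b3 b1 (by
      rw [← b2.lst.2, ← b4.lst.2]
      exact hm (Nat.lt_succ_self a))
    obtain ⟨o, c1, c2⟩ := b4.unique (hp (a + 1))
    have b6 : Anc r (p (a + 1)) := anc_congr (par_of_pt c1 c2) b5
    obtain ⟨o', c3, c4⟩ := b2.unique (hp a)
    exact ⟨b2.mem b6, H_congr c3 c4 ▸ anc_le b6⟩
  have hc : Chain p := ⟨fun a => (hp a).1, fun a => lt_of_le_of_ne (h2 a).2 fun e =>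
    (hp a).1.not_mem (hz0 a) (hp a).lst.2 (e ▸ (h2 a).1)⟩
  exact ⟨p, hc, not_fd fun N => ⟨z N, ⟨hc.mem.2 ⟨_, (h2 N).1⟩, hz N⟩, hz0 N, hm.id_le N⟩⟩

theorem exists_pair {X : Submodule F (ℕ →₀ F)} (hX : ¬ FiniteDimensional F X)
    (hun : ∀ q, Chain q → FiniteDimensional F (Y q ⊓ X : Submodule F (ℕ →₀ F))) (N : ℕ) :
    ∃ a ∈ X, ∃ b ∈ X, Nrm a ∧ Nrm b ∧ N ≤ fst a ∧ lst a < fst b ∧
      ¬ ∃ t, Adm t ∧ a ∈ H t ∧ b ∈ H t := by
  by_contra hcon
  push Not at hcon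
  choose g hg1 hg2 hg3 using exists_nrm hX
  let z : ℕ → ℕ →₀ F := fun n => Nat.rec (g N) (fun _ w => g (lst w + 1)) n
  have hs : ∀ n, z (n + 1) = g (lst (z n) + 1) := fun n => rfl
  have hz : ∀ n, z n ∈ X ∧ Nrm (z n) := fun n => by
    cases n with
    | zero => exact ⟨hg1 _, hg2 _⟩
    | succ n => exact ⟨hg1 _, hg2 _⟩
  have hlt : ∀ n, lst (z n) < fst (z (n + 1)) := fun n => hg3 _
  have hm : StrictMono fun a => lst (z a) := strictMono_nat_of_lt_succ fun n =>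
    (hlt n).trans_le (fst_le_lst (hz (n + 1)).2.1)
  have hf : StrictMono fun a => fst (z a) := strictMono_nat_of_lt_succ fun n =>
    (fst_le_lst (hz n).2.1).trans_lt (hlt n)
  obtain ⟨q, h1, h2⟩ := caught (fun a => (hz a).1) (fun a => (hz a).2.1) hm fun a b hab =>
    hcon _ (hz a).1 _ (hz b).1 (hz a).2 (hz b).2 ((hg3 N).trans (hf.monotone (Nat.zero_le a)))
      ((hlt a).trans_le (hf.monotone hab))
  exact h2 (hun q h1)

theorem blk_data {v : ℕ →₀ F} (hv : v ≠ 0) {j : ℕ} (h : Blk v j) :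
    ∃ a δ, fst v + 1 ≤ a ∧ a ≤ fst (hi j v) ∧ 2 ^ a ∣ osc (hi j v) ∧ osc (hi j v) ≠ 0 ∧ δ ≤ a ∧
      osc v = δ + osc (hi j v) := by
  obtain ⟨h1, h2, l, h3, h4⟩ := h
  have e1 : lo j v (fst v) ≠ 0 := by
    rw [lo_apply, if_pos h1]
    exact fst_ne hv
  have e2 : lo j v ≠ 0 := fun h => e1 (by rw [h]; rfl)
  have e3 : fst v ≤ lst (lo j v) := le_lst e1
  have e4 : (l + lo j v) (lst (lo j v)) ≠ 0 := by
    rw [Finsupp.add_apply, h3 _ e3, zero_add]
    exact lst_ne e2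
  have e5 : lst (lo j v) < fst (hi j v) := by
    have a1 := lst_ne e2
    have a2 := fst_ne h2.ne
    rw [lo_apply] at a1
    rw [hi_apply] at a2
    have a3 : lst (lo j v) < j := by
      by_contra h
      exact a1 (if_neg h)
    have a4 : j ≤ fst (hi j v) := by
      by_contra h
      exact a2 (if_neg h)
    omega
  rcases ((adm_iff _).1 h2).2.1 with b1 | ⟨p, b1, b2, b3⟩
  · rw [H_none b1, Submodule.mem_bot] at h4
    rw [h4] at e4
    exact absurd rfl e4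
  have e6 : lst (lo j v) ≤ lst p := by
    by_contra hlt
    rw [H_some b1, Submodule.mem_sup] at h4
    obtain ⟨y, hy, z, hz, e⟩ := h4
    obtain ⟨c, rfl⟩ := Submodule.mem_span_singleton.1 hz
    apply e4
    have := fst_le_lst b3.ne
    rw [← e, Finsupp.add_apply, b3.below hy (by omega), Finsupp.smul_apply,
      zero_of_lst_lt (not_le.1 hlt)]
    simp
  have e7 := osc_add e2 h2.ne e5
  rw [lo_add_hi] at e7
  have e8 := osc_le (lo j v)
  refine ⟨lst p + 1, osc (lo j v) + if lo j v (lst (lo j v)) = hi j v (fst (hi j v)) then 0 else 1,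
    by omega, b2, (pow_dvd_pow 2 (lt_idx p)).trans b1.1, fun h => b1.2 (h ▸ dvd_zero _), ?_, ?_⟩
  · split_ifs <;> omega
  · rw [e7]
    ring

theorem low {v : ℕ →₀ F} (hv : v ≠ 0) {j i N : ℕ} (h : Blk v j) (hd : 2 ^ N ∣ osc v + 2 ^ i)
    (hi' : i + 1 ≤ fst v) (hN : fst (hi j v) ≤ N) : False := by
  obtain ⟨a, δ, h1, h2, h3, -, h5, h6⟩ := blk_data hv h
  have h7 : 2 ^ a ∣ δ + 2 ^ i := by
    have := (pow_dvd_pow 2 (h2.trans hN)).trans hd
    rw [h6, add_right_comm] at this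
    exact (Nat.dvd_add_left h3).1 this
  have h8 := Nat.le_of_dvd (by positivity) h7
  obtain ⟨b, rfl⟩ : ∃ b, a = b + 1 := ⟨a - 1, by omega⟩
  have h9 : 2 ^ (i + 1) ≤ 2 ^ b := Nat.pow_le_pow_right (by norm_num) (by omega)
  have h10 : b < 2 ^ b := Nat.lt_two_pow_self
  have h11 : 0 < 2 ^ i := by positivity
  rw [pow_succ] at h8 h9
  omega

theorem easy {v : ℕ →₀ F} (hv : v ≠ 0) {j i : ℕ} (h : Blk v j) (hd : osc v = 2 ^ i)
    (hi' : i ≤ fst v) : False := by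
  obtain ⟨a, δ, h1, -, h3, h4, -, h6⟩ := blk_data hv h
  have h8 := Nat.le_of_dvd (Nat.pos_of_ne_zero h4) h3
  have h9 : 2 ^ (i + 1) ≤ 2 ^ a := Nat.pow_le_pow_right (by norm_num) (by omega)
  have h11 : 0 < 2 ^ i := by positivity
  rw [pow_succ] at h9
  omega

/-- an armed cut of a tail -/
def Arm (τ : ℕ →₀ F) (j : ℕ) : Prop :=
  Adm (hi j τ) ∧ ∃ l : ℕ →₀ F, (∀ k, fst τ ≤ k → l k = 0) ∧ l + lo j τ ∈ H (hi j τ)

theorem arm_aux {τ : ℕ →₀ F} {j j' : ℕ} (h : Arm τ j) (h' : Arm τ j') (hle : j ≤ j') :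
    hi j τ = hi j' τ := by
  by_contra hne
  obtain ⟨h1, -⟩ := h
  obtain ⟨h2, l, h3, h4⟩ := h'
  have e0 := fst_ne h1.ne
  rw [hi_apply] at e0
  have e1 : j ≤ fst (hi j τ) := by
    by_contra h
    exact e0 (if_neg h)
  rw [if_pos e1] at e0
  have e2 : hi j' (hi j τ) = hi j' τ := by
    ext k
    simp only [hi_apply]
    split_ifs with a1 a2
    · rfl
    · omega
    · rfl
  refine ((adm_iff _).1 h1).2.2 ⟨j', ?_, e2 ▸ h2, l + lo j τ, fun k hk => ?_, ?_⟩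
  · by_contra hlt
    apply hne
    rw [← e2]
    ext k
    rw [hi_apply j']
    split_ifs with a1
    · rfl
    · exact zero_of_lt_fst (by omega)
  · rw [Finsupp.add_apply, h3 k ((fst_le e0).trans hk), lo_apply, if_neg (by omega), add_zero]
  · rw [e2]
    convert h4 using 1
    ext k
    simp only [Finsupp.add_apply, lo_apply, hi_apply]
    split_ifs <;> first | omega | simp

theorem arm_unique {τ : ℕ →₀ F} {j j' : ℕ} (h : Arm τ j) (h' : Arm τ j') : hi j τ = hi j' τ := by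
  rcases le_total j j' with hle | hle
  · exact arm_aux h h' hle
  · exact (arm_aux h' h hle).symm

theorem high {u τ : ℕ →₀ F} (hu : u ≠ 0) (hlt : lst u < fst τ) {j : ℕ} (hj : fst τ < j)
    (h : Blk (u + τ) j) : Arm τ j ∧
      ∃ l : ℕ →₀ F, (∀ k, fst u ≤ k → l k = 0) ∧ l + u + (τ - hi j τ) ∈ H (hi j τ) := by
  obtain ⟨-, h2, l, h3, h4⟩ := h
  have e1 : hi j (u + τ) = hi j τ := by
    ext k
    simp only [hi_apply, Finsupp.add_apply]
    split_ifs with a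
    · rw [zero_of_lst_lt (v := u) (by omega), zero_add]
    · rfl
  have e2 : lo j (u + τ) = u + lo j τ := by
    ext k
    simp only [lo_apply, Finsupp.add_apply]
    split_ifs with a
    · rfl
    · rw [zero_of_lst_lt (v := u) (by omega), zero_add]
  rw [(fst_add hu hlt).1] at h3
  rw [e1] at h2
  rw [e1, e2, ← add_assoc] at h4
  have e3 := fst_le_lst hu
  refine ⟨⟨h2, l + u, fun k hk => ?_, h4⟩, l, h3, ?_⟩
  · rw [Finsupp.add_apply, h3 k (by omega), zero_of_lst_lt (v := u) (by omega), add_zero]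
  · rwa [← eq_sub_of_add_eq (lo_add_hi j τ)]

omit [Countable F] in
theorem cand {s a b τ : ℕ →₀ F} (hs : Nrm s) (ha : Nrm a) (hb : Nrm b) (hτ : τ ≠ 0)
    (hτ1 : τ (fst τ) = 1) (h1 : lst s < fst a) (h2 : lst a < fst b) (h3 : lst b < fst τ)
    {α β : F} (hα : α ≠ 0) (hβ : β ≠ 0) :
    s + α • a + β • b ≠ 0 ∧ fst (s + α • a + β • b) = fst s ∧ (s + α • a + β • b) (fst s) = 1 ∧
    lst (s + α • a + β • b) = lst b ∧
    osc (s + α • a + β • b + τ) = osc s + osc a + osc b + osc τ +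
      ((if 1 = α then 0 else 1) + (if α = β then 0 else 1) + if β = 1 then 0 else 1) := by
  have ha' : α • a ≠ 0 := smul_ne_zero hα ha.1
  have hb' : β • b ≠ 0 := smul_ne_zero hβ hb.1
  have l1 : lst s < fst (α • a) := by rwa [fst_smul hα]
  have n1 := add_ne_zero hs.1 l1
  obtain ⟨f1, f1'⟩ := fst_add hs.1 l1
  obtain ⟨g1, g1'⟩ := lst_add ha' l1
  have l2 : lst (s + α • a) < fst (β • b) := by rwa [g1, fst_smul hβ, lst_smul hα]
  have n2 := add_ne_zero n1 l2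
  obtain ⟨f2, f2'⟩ := fst_add n1 l2
  obtain ⟨g2, g2'⟩ := lst_add hb' l2
  have l3 : lst (s + α • a + β • b) < fst τ := by rwa [g2, lst_smul hβ]
  refine ⟨n2, f2.trans f1, ?_, g2.trans (lst_smul hβ b), ?_⟩
  · rw [← f1, f2', f1, f1', hs.2.1]
  · rw [osc_add n2 hτ l3, osc_add n1 hb' l2, osc_add hs.1 ha' l1, g2, g2', g1, g1', hτ1,
      osc_smul hα, osc_smul hβ, lst_smul hα, lst_smul hβ, fst_smul hα, fst_smul hβ]
    simp only [Finsupp.smul_apply, smul_eq_mul, ha.2.1, ha.2.2, hb.2.1, hb.2.2, hs.2.2, mul_one]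
    ring

theorem adm_of {v : ℕ →₀ F} {o : Option (ℕ →₀ F)} (ho : ∀ p, o = some p → Adm p) (hv : v ≠ 0)
    (hp : Pt v o) (hi : idx o ≤ fst v) (hb : ¬ ∃ j, Blk v j) : Adm v := by
  refine (adm_iff v).2 ⟨hv, ?_, hb⟩
  cases o with
  | none => exact Or.inl hp
  | some p => exact Or.inr ⟨p, hp, (lt_idx p).trans hi, ho p rfl⟩

theorem extension {θ : F} (h0 : θ ≠ 0) (h1 : θ ≠ 1) {X : Submodule F (ℕ →₀ F)}
    (hX : ¬ FiniteDimensional F X)
    (hun : ∀ q, Chain q → FiniteDimensional F (Y q ⊓ X : Submodule F (ℕ →₀ F)))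
    (o : Option (ℕ →₀ F)) (ho : ∀ p, o = some p → Adm p) : ∃ v ∈ X, Adm v ∧ Pt v o := by
  obtain ⟨s, hsX, hs, hsN⟩ := exists_nrm hX (idx o + 1)
  obtain ⟨a, haX, b, hbX, ha, hb, l1, l2, hab⟩ := exists_pair hX hun (lst s + 1)
  obtain ⟨z, hzX, hz, l3⟩ := exists_nrm hX (lst b + 1)
  obtain ⟨o', L, htune⟩ := tune h0 h1 hX hzX hz (2 ^ fst z)
  have hpos : 0 < 2 ^ fst z := by positivity
  obtain ⟨τ, hτX, hτ0, hτ1, hτ2, -, hτ3⟩ := htune
    (2 ^ fst z - (osc s + osc a + osc b + o' + 2 + 2 ^ idx o) % 2 ^ fst z) (Nat.sub_le _ _)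
  have hdvd : 2 ^ fst z ∣ osc s + osc a + osc b + osc τ + 2 + 2 ^ idx o := by
    have e1 := Nat.div_add_mod (osc s + osc a + osc b + o' + 2 + 2 ^ idx o) (2 ^ fst z)
    have e2 := Nat.mod_lt (osc s + osc a + osc b + o' + 2 + 2 ^ idx o) hpos
    refine ⟨(osc s + osc a + osc b + o' + 2 + 2 ^ idx o) / 2 ^ fst z + 1, ?_⟩
    rw [hτ3, mul_add, mul_one]
    omega
  have f1 := fst_le_lst hs.1
  have f2 := fst_le_lst ha.1
  have f3 := fst_le_lst hb.1
  by_contra hcon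
  push Not at hcon
  have key : ∀ α β : F, α ≠ 0 → β ≠ 0 →
      ((if 1 = α then 0 else 1) + (if α = β then 0 else 1) + if β = 1 then 0 else 1) = 2 →
      ∃ j, Arm τ j ∧ ∃ l : ℕ →₀ F, (∀ k, fst s ≤ k → l k = 0) ∧
        l + (s + α • a + β • b) + (τ - hi j τ) ∈ H (hi j τ) := by
    intro α β hα hβ h2
    obtain ⟨c1, c2, c3, c4, c5⟩ := cand hs ha hb hτ0 (hτ1 ▸ hτ2) l1 l2 (hτ1 ▸ l3) hα hβ
    rw [h2] at c5
    have hlt : lst (s + α • a + β • b) < fst τ := by omega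
    have hv0 := add_ne_zero c1 hlt
    have hfv := (fst_add c1 hlt).1.trans c2
    have hd : 2 ^ fst z ∣ osc (s + α • a + β • b + τ) + 2 ^ idx o := c5 ▸ hdvd
    have hpt : Pt (s + α • a + β • b + τ) o := by
      have d1 : 2 ^ (idx o + 1) ∣ osc (s + α • a + β • b + τ) + 2 ^ idx o :=
        (pow_dvd_pow 2 (by omega)).trans hd
      refine ⟨(Nat.dvd_add_left (dvd_refl _)).1 ((pow_dvd_pow 2 (Nat.le_succ _)).trans d1),
        fun d2 => ?_⟩
      have d3 := Nat.le_of_dvd (by positivity) ((Nat.dvd_add_right d2).1 d1)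
      have d4 : 0 < 2 ^ idx o := by positivity
      rw [pow_succ] at d3
      omega
    have hmem : s + α • a + β • b + τ ∈ X :=
      X.add_mem (X.add_mem (X.add_mem hsX (X.smul_mem _ haX)) (X.smul_mem _ hbX)) hτX
    have hbl : ∃ j, Blk (s + α • a + β • b + τ) j := by
      by_contra hb'
      exact hcon _ hmem (adm_of ho hv0 hpt (by omega) hb') hpt
    obtain ⟨j, hj⟩ := hbl
    by_cases hjτ : fst τ < j
    · obtain ⟨d1, d2⟩ := high c1 hlt hjτ hj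
      exact ⟨j, d1, c2 ▸ d2⟩
    · refine (low hv0 hj hd (by omega) (fst_le ?_)).elim
      rw [hi_apply, if_pos (by omega), Finsupp.add_apply, hτ2,
        zero_of_lst_lt (v := s + α • a + β • b) (by omega), zero_add]
      exact one_ne_zero
  obtain ⟨j₁, A₁, l₁, B₁, C₁⟩ := key θ 1 h0 one_ne_zero (by simp [h1, h1.symm])
  obtain ⟨j₂, A₂, l₂, B₂, C₂⟩ := key 1 θ one_ne_zero h0 (by simp [h1, h1.symm])
  obtain ⟨j₃, A₃, l₃, B₃, C₃⟩ := key θ θ h0 h0 (by simp [h1, h1.symm])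
  rw [arm_unique A₁ A₃] at C₁
  rw [arm_unique A₂ A₃] at C₂
  have hθ : θ - 1 ≠ 0 := sub_ne_zero.2 h1
  have hh : (l₃ + (s + θ • a + θ • b) + (τ - hi j₃ τ)) (fst s) ≠ 0 := by
    have t0 : τ (fst s) = 0 := zero_of_lt_fst (by omega)
    rw [Finsupp.add_apply, Finsupp.add_apply, B₃ _ le_rfl,
      (cand hs ha hb hτ0 (hτ1 ▸ hτ2) l1 l2 (hτ1 ▸ l3) h0 h0).2.2.1, Finsupp.sub_apply, hi_apply, t0]
    simp
  have fin : ∀ l w : ℕ →₀ F, (∀ k, fst s ≤ k → l k = 0) → fst s < fst w →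
      l + (θ - 1) • w ∈ H (hi j₃ τ) → w ∈ H (hi j₃ τ) := by
    intro l w a1 a2 a3
    have a4 := split A₃.1 a3 C₃ (f := fst s) (by simp [a1 _ le_rfl, zero_of_lt_fst a2]) hh
    have a5 : hi (fst s) (l + (θ - 1) • w) = (θ - 1) • w := by
      ext k
      rw [hi_apply]
      split_ifs with a6
      · rw [Finsupp.add_apply, a1 k a6, zero_add]
      · simp [zero_of_lt_fst (v := w) (k := k) (by omega)]
    rw [a5] at a4
    exact (Submodule.smul_mem_iff _ hθ).1 a4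
  refine hab ⟨hi j₃ τ, A₃.1, fin (l₃ - l₂) a (fun k hk => by simp [B₃ k hk, B₂ k hk])
    (by omega) ?_, fin (l₃ - l₁) b (fun k hk => by simp [B₃ k hk, B₁ k hk]) (by omega) ?_⟩
  · convert (H _).sub_mem C₃ C₂ using 1
    module
  · convert (H _).sub_mem C₃ C₁ using 1
    module

theorem chain_of {p : ℕ → ℕ →₀ F} (h1 : ∀ n, Adm (p n)) (h2 : ∀ n, Pt (p (n + 1)) (some (p n))) :
    Chain p ∧ (∀ n, p n ∈ Y p) ∧ StrictMono fun n => lst (p n) := by
  have ha : ∀ n, Anc (p n) (p (n + 1)) := fun n => Relation.TransGen.single (h2 n)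
  have hc : Chain p := ⟨h1, fun n => lt_of_le_of_ne (anc_le (ha n)) fun e =>
    (h1 n).not_mem (h1 n).ne rfl (e ▸ anc_mem (ha n))⟩
  exact ⟨hc, fun n => hc.mem.2 ⟨_, anc_mem (ha n)⟩, strictMono_nat_of_lt_succ fun n =>
    ((h1 _).anc (ha n)).2.trans_le (fst_le_lst (h1 _).ne)⟩

theorem maximal {θ : F} (h0 : θ ≠ 0) (h1 : θ ≠ 1) {X : Submodule F (ℕ →₀ F)}
    (hX : ¬ FiniteDimensional F X) :
    ∃ q, Chain q ∧ ¬ FiniteDimensional F (Y q ⊓ X : Submodule F (ℕ →₀ F)) := by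
  by_contra hcon
  push Not at hcon
  obtain ⟨r, hr1, hr2, -⟩ := extension h0 h1 hX hcon none (by simp)
  have step : ∀ p : {p // p ∈ X ∧ Adm p}, ∃ v : {p // p ∈ X ∧ Adm p}, Pt v.1 (some p.1) := by
    intro p
    obtain ⟨v, a1, a2, a3⟩ := extension h0 h1 hX hcon (some p.1) (by
      rintro _ ⟨rfl⟩
      exact p.2.2)
    exact ⟨⟨v, a1, a2⟩, a3⟩
  choose g hg using step
  let p : ℕ → {p // p ∈ X ∧ Adm p} := fun n => Nat.rec ⟨r, hr1, hr2⟩ (fun _ w => g w) n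
  obtain ⟨c1, c2, c3⟩ := chain_of (p := fun n => (p n).1) (fun n => (p n).2.2) fun n => hg (p n)
  exact not_fd (X := Y (fun n => (p n).1) ⊓ X) (fun N =>
    ⟨(p N).1, Submodule.mem_inf.2 ⟨c2 N, (p N).2.1⟩, (p N).2.2.ne, c3.id_le N⟩) (hcon _ c1)

omit [Countable F] in
theorem exists_osc {θ : F} (h0 : θ ≠ 0) (h1 : θ ≠ 1) (f r : ℕ) :
    ∃ τ : ℕ →₀ F, τ ≠ 0 ∧ fst τ = f ∧ osc τ = r := by
  have hs : ∀ (k : ℕ) (c : F), c ≠ 0 →
      fst (Finsupp.single k c) = k ∧ osc (Finsupp.single k c) = 0 := by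
    intro k c hc
    refine ⟨fst_eq (by simpa using hc) fun j hj => Finsupp.single_eq_of_ne hj.ne, ?_⟩
    rw [osc, Finset.card_eq_zero, Finset.filter_eq_empty_iff]
    rintro j hj ⟨j', a1, a2, -⟩
    have b1 := (Finsupp.single_apply_ne_zero.1 (Finsupp.mem_support_iff.1 hj)).1
    have b2 := (Finsupp.single_apply_ne_zero.1 a2).1
    omega
  induction r with
  | zero => exact ⟨Finsupp.single f 1, by simp, hs f 1 one_ne_zero⟩
  | succ r ih =>
    obtain ⟨τ, a1, a2, a3⟩ := ih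
    have hc : θ * τ (lst τ) ≠ 0 := mul_ne_zero h0 (lst_ne a1)
    obtain ⟨b1, b2⟩ := hs (lst τ + 1) _ hc
    have hlt : lst τ < fst (Finsupp.single (lst τ + 1) (θ * τ (lst τ))) := by omega
    refine ⟨_, add_ne_zero a1 hlt, (fst_add a1 hlt).1.trans a2, ?_⟩
    rw [osc_add a1 (Finsupp.single_ne_zero.2 hc) hlt, a3, b1, b2, Finsupp.single_eq_same, if_neg]
    intro h
    exact h1 (mul_right_cancel₀ (lst_ne a1) (by rw [one_mul]; exact h.symm))

theorem easy_ext {θ : F} (h0 : θ ≠ 0) (h1 : θ ≠ 1) (o : Option (ℕ →₀ F))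
    (ho : ∀ p, o = some p → Adm p) (N : ℕ) : ∃ v, Adm v ∧ Pt v o ∧ N ≤ fst v := by
  obtain ⟨v, a1, a2, a3⟩ := exists_osc h0 h1 (idx o + N) (2 ^ idx o)
  have hp : Pt v o := by
    refine ⟨a3 ▸ dvd_refl _, fun d => ?_⟩
    have d3 := Nat.le_of_dvd (by rw [a3]; positivity) d
    have d4 : 0 < 2 ^ idx o := by positivity
    rw [pow_succ] at d3
    omega
  exact ⟨v, adm_of ho a1 hp (by omega) fun ⟨j, hj⟩ => easy a1 hj a3 (by omega), hp, by omega⟩

theorem root_unique {q : ℕ → ℕ →₀ F} (hq : Chain q) {r r' : ℕ →₀ F} (h1 : Adm r) (h2 : Pt r none)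
    (h3 : r ∈ Y q) (h1' : Adm r') (h2' : Pt r' none) (h3' : r' ∈ Y q) : lst r = lst r' := by
  obtain ⟨a, ha⟩ := hq.mem.1 h3
  obtain ⟨b, hb⟩ := hq.mem.1 h3'
  obtain ⟨p, a1, a2⟩ := exists_rep (hq.1 _) (hq.mono.monotone (le_max_left a b) ha) h1.ne
  obtain ⟨p', b1, b2⟩ := exists_rep (hq.1 _) (hq.mono.monotone (le_max_right a b) hb) h1'.ne
  obtain ⟨o, a3, a4⟩ := a2.unique h1.rep
  obtain ⟨o', b3, b4⟩ := b2.unique h1'.rep
  rw [a4.unique h2] at a3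
  rw [b4.unique h2'] at b3
  rw [a2.lst.2, b2.lst.2]
  rcases anc_total a1 b1 with e | e | e
  · rw [e]
  · have := anc_mem e
    rw [H_none b3] at this
    exact absurd this a2.1.ne
  · have := anc_mem e
    rw [H_none a3] at this
    exact absurd this b2.1.ne

theorem infinite_fam {θ : F} (h0 : θ ≠ 0) (h1 : θ ≠ 1) :
    {y : Submodule F (ℕ →₀ F) | ∃ q, Chain q ∧ Y q = y}.Infinite := by
  have step : ∀ p : {p : ℕ →₀ F // Adm p}, ∃ v : {p : ℕ →₀ F // Adm p}, Pt v.1 (some p.1) := by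
    intro p
    obtain ⟨v, a1, a2, -⟩ := easy_ext h0 h1 (some p.1) (by
      rintro _ ⟨rfl⟩
      exact p.2) 0
    exact ⟨⟨v, a1⟩, a2⟩
  choose g hg using step
  have hch : ∀ r : ℕ →₀ F, Adm r → ∃ q, Chain q ∧ r ∈ Y q := by
    intro r hr
    let p : ℕ → {p : ℕ →₀ F // Adm p} := fun n => Nat.rec ⟨r, hr⟩ (fun _ w => g w) n
    obtain ⟨c1, c2, -⟩ := chain_of (p := fun n => (p n).1) (fun n => (p n).2) fun n => hg (p n)
    exact ⟨_, c1, c2 0⟩
  choose ρ hρ1 hρ2 hρ3 using easy_ext h0 h1 none (by simp)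
  let r : ℕ → ℕ →₀ F := fun n => Nat.rec (ρ 0) (fun _ w => ρ (lst w + 1)) n
  have hr : ∀ n, Adm (r n) ∧ Pt (r n) none := fun n => by
    cases n with
    | zero => exact ⟨hρ1 _, hρ2 _⟩
    | succ n => exact ⟨hρ1 _, hρ2 _⟩
  have hm : StrictMono fun n => lst (r n) := strictMono_nat_of_lt_succ fun n =>
    (Nat.lt_of_succ_le (hρ3 _)).trans_le (fst_le_lst (hr (n + 1)).1.ne)
  choose q hq1 hq2 using fun n => hch (r n) (hr n).1
  refine Set.infinite_of_injective_forall_mem (f := fun n => Y (q n)) (fun n m h => ?_)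
    fun n => ⟨q n, hq1 n, rfl⟩
  have h' : Y (q n) = Y (q m) := h
  exact hm.injective (root_unique (hq1 n) (hr n).1 (hr n).2 (hq2 n) (hr m).1 (hr m).2 (h' ▸ hq2 m))

theorem analytic_fam : MeasureTheory.AnalyticSet
    ((fun (y : Submodule F (ℕ →₀ F)) (v : ℕ →₀ F) => decide (v ∈ y)) ''
      {y | ∃ q, Chain q ∧ Y q = y}) := by
  obtain ⟨e, he⟩ := exists_surjective_nat (ℕ →₀ F)
  have m1 : ∀ (P : ℕ → ℕ → Prop) (a b : ℕ), MeasurableSet {x : ℕ → ℕ | P (x a) (x b)} :=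
    fun P a b => (MeasurableSet.of_discrete (s := {t : ℕ × ℕ | P t.1 t.2})).preimage
      (f := fun x : ℕ → ℕ => (x a, x b))
      ((measurable_pi_apply a).prodMk (measurable_pi_apply b))
  have hI : MeasurableSet {x : ℕ → ℕ | Chain (e ∘ x)} := by
    have : {x : ℕ → ℕ | Chain (e ∘ x)} =
        ⋂ a, {x : ℕ → ℕ | Adm (e (x a)) ∧ H (e (x a)) < H (e (x (a + 1)))} := by
      ext x
      simp [Chain, forall_and]
    rw [this]
    exact MeasurableSet.iInter fun a => m1 (fun i j => Adm (e i) ∧ H (e i) < H (e j)) a (a + 1)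
  have hf : Measurable fun (x : ℕ → ℕ) (v : ℕ →₀ F) => decide (∃ a, v ∈ H (e (x a))) := by
    refine measurable_pi_lambda _ fun v => measurable_to_bool ?_
    have : (fun x : ℕ → ℕ => decide (∃ a, v ∈ H (e (x a)))) ⁻¹' {true} =
        ⋃ a, {x : ℕ → ℕ | v ∈ H (e (x a))} := by
      ext x
      simp
    rw [this]
    exact MeasurableSet.iUnion fun a => m1 (fun i _ => v ∈ H (e i)) a a
  convert hI.analyticSet_image hf using 1
  ext χ
  constructor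
  · rintro ⟨_, ⟨q, hq, rfl⟩, rfl⟩
    choose x hx using fun a => he (q a)
    have : e ∘ x = q := funext hx
    refine ⟨x, show Chain (e ∘ x) from this ▸ hq, ?_⟩
    funext v
    simp [hq.mem, hx]
  · rintro ⟨x, hx, rfl⟩
    refine ⟨_, ⟨_, hx, rfl⟩, ?_⟩
    funext v
    simp [Chain.mem hx]

end Pool.Agent.H502Z.Vec
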