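import Pool.Agent.H502Z.Vec.Two
import Pool.Agent.H502Z.Vec.Max

set_option autoImplicit false

namespace Pool.Agent.H502Z.Vec

open Classical

variable {F : Type} [Field F] [Countable F]

theorem mad_fam {θ : F} (h0 : θ ≠ 0) (h1 : θ ≠ 1) :
    IsMadSub {y : Submodule F (ℕ →₀ F) | ∃ q, Chain q ∧ Y q = y} := by
  refine ⟨⟨?_, ?_⟩, fun ℬ hB hsub => Set.Subset.antisymm (fun X hX => ?_) hsub⟩
  · rintro _ ⟨q, hq, rfl⟩
    exact hq.not_fd
  · rintro _ ⟨q, hq, rfl⟩ _ ⟨q', hq', rfl⟩ hne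
    by_contra h
    exact hne (le_antisymm (hq.le hq' h) (hq'.le hq (by rwa [inf_comm])))
  · obtain ⟨q, hq, h⟩ := maximal h0 h1 (hB.1 X hX)
    by_contra hn
    exact h (hB.2 _ (hsub ⟨q, hq, rfl⟩) X hX fun e => hn ⟨q, hq, e⟩)

omit [Countable F] in
theorem transfer {E E' : Type} [AddCommGroup E] [Module F E] [AddCommGroup E'] [Module F E']
    (φ : E ≃ₗ[F] E') {𝒜 : Set (Submodule F E')} (h : IsADSub 𝒜) :
    IsADSub ((Submodule.comap (φ : E →ₗ[F] E')) '' 𝒜) := by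
  have fd : ∀ X : Submodule F E', FiniteDimensional F (X.comap (φ : E →ₗ[F] E')) ↔
      FiniteDimensional F X := fun X =>
    ⟨fun _ => (φ.ofSubmodule' X).finiteDimensional,
      fun _ => (φ.ofSubmodule' X).symm.finiteDimensional⟩
  refine ⟨?_, ?_⟩
  · rintro _ ⟨X, hX, rfl⟩
    rw [fd]
    exact h.1 X hX
  · rintro _ ⟨X, hX, rfl⟩ _ ⟨Z, hZ, rfl⟩ hne
    rw [← Submodule.comap_inf, fd]
    exact h.2 X hX Z hZ fun e => hne (e ▸ rfl)

theorem main {E : Type} [AddCommGroup E] [Module F E] (b : Module.Basis ℕ F E) :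
    (∃ 𝒜 : Set (Submodule F E), 𝒜.Infinite ∧ IsMadSub 𝒜 ∧
      MeasureTheory.AnalyticSet (chi '' 𝒜)) ↔ Nat.card F ≠ 2 := by
  constructor
  · rintro ⟨𝒜, h1, h2, h3⟩ hc
    have : Countable E := b.repr.toEquiv.countable_iff.2 inferInstance
    obtain ⟨y, hy, hy'⟩ := (Nat.card_eq_two_iff' (0 : F)).1 hc
    refine no_analytic (fun c => ?_) h1 h2 h3
    by_cases h : c = 0
    · exact Or.inl h
    · exact Or.inr ((hy' c h).trans (hy' 1 one_ne_zero).symm)
  · intro hc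
    obtain ⟨θ, h0, h1⟩ : ∃ θ : F, θ ≠ 0 ∧ θ ≠ 1 := by
      by_contra h
      push Not at h
      exact hc ((Nat.card_eq_two_iff' (0 : F)).2 ⟨1, one_ne_zero, h⟩)
    have hc1 : ∀ X : Submodule F E, (X.comap (b.repr.symm : (ℕ →₀ F) →ₗ[F] E)).comap
        (b.repr : E →ₗ[F] (ℕ →₀ F)) = X := fun X => by
      ext v
      simp
    have hc2 : ∀ X : Submodule F (ℕ →₀ F), (X.comap (b.repr : E →ₗ[F] (ℕ →₀ F))).comap
        (b.repr.symm : (ℕ →₀ F) →ₗ[F] E) = X := fun X => by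
      ext v
      simp
    have hm := mad_fam h0 h1
    refine ⟨Submodule.comap (b.repr : E →ₗ[F] (ℕ →₀ F)) '' {y | ∃ q, Chain q ∧ Y q = y},
      (infinite_fam h0 h1).image fun X _ Z _ h => by rw [← hc2 X, h, hc2],
      ⟨transfer b.repr hm.1, fun ℬ hB hsub => Set.Subset.antisymm (fun X hX => ?_) hsub⟩, ?_⟩
    · have := hm.2 _ (transfer b.repr.symm hB) fun Z hZ => ⟨_, hsub ⟨Z, hZ, rfl⟩, hc2 Z⟩
      exact ⟨_, this ▸ Set.mem_image_of_mem _ hX, hc1 X⟩
    · have := (analytic_fam (F := F)).image_of_continuous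
        (f := fun (χ : (ℕ →₀ F) → Bool) (v : E) => χ (b.repr v))
        (continuous_pi fun v => continuous_apply _)
      convert this using 1
      rw [Set.image_image, Set.image_image]
      rfl

end Pool.Agent.H502Z.Vec
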