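import Mathlib

set_option autoImplicit false

namespace Pool.Agent.H502Z.Vec

open Classical

variable {F : Type} [Field F]

/-- first position of the support -/
noncomputable def fst (v : ℕ →₀ F) : ℕ := sInf {k | v k ≠ 0}

/-- last position of the support -/
noncomputable def lst (v : ℕ →₀ F) : ℕ := v.support.sup id

theorem fst_le {v : ℕ →₀ F} {k : ℕ} (h : v k ≠ 0) : fst v ≤ k := Nat.sInf_le h

theorem le_lst {v : ℕ →₀ F} {k : ℕ} (h : v k ≠ 0) : k ≤ lst v :=
  Finset.le_sup (f := id) (Finsupp.mem_support_iff.2 h)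

theorem fst_ne {v : ℕ →₀ F} (h : v ≠ 0) : v (fst v) ≠ 0 := by
  have : {k | v k ≠ 0}.Nonempty := by
    by_contra h'
    apply h
    ext k
    by_contra hk
    exact h' ⟨k, hk⟩
  exact Nat.sInf_mem this

theorem lst_ne {v : ℕ →₀ F} (h : v ≠ 0) : v (lst v) ≠ 0 := by
  obtain ⟨k, hk, e⟩ := Finset.exists_mem_eq_sup v.support (Finsupp.support_nonempty_iff.2 h) id
  rw [lst, e]
  exact Finsupp.mem_support_iff.1 hk

theorem fst_le_lst {v : ℕ →₀ F} (h : v ≠ 0) : fst v ≤ lst v := le_lst (fst_ne h)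

theorem zero_of_lt_fst {v : ℕ →₀ F} {k : ℕ} (h : k < fst v) : v k = 0 := by
  by_contra h'
  exact absurd (fst_le h') (not_le.2 h)

theorem zero_of_lst_lt {v : ℕ →₀ F} {k : ℕ} (h : lst v < k) : v k = 0 := by
  by_contra h'
  exact absurd (le_lst h') (not_le.2 h)

theorem fst_eq {v : ℕ →₀ F} {k : ℕ} (h : v k ≠ 0) (h' : ∀ j < k, v j = 0) : fst v = k := by
  refine le_antisymm (fst_le h) ?_
  by_contra hlt
  exact fst_ne (by rintro rfl; exact h rfl) (h' _ (not_le.1 hlt))

theorem lst_eq {v : ℕ →₀ F} {k : ℕ} (h : v k ≠ 0) (h' : ∀ j, k < j → v j = 0) : lst v = k := by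
  refine le_antisymm ?_ (le_lst h)
  by_contra hlt
  exact lst_ne (by rintro rfl; exact h rfl) (h' _ (not_le.1 hlt))

theorem fst_smul {c : F} (hc : c ≠ 0) (v : ℕ →₀ F) : fst (c • v) = fst v := by
  simp [fst, hc]

theorem lst_smul {c : F} (hc : c ≠ 0) (v : ℕ →₀ F) : lst (c • v) = lst v := by
  simp [lst, Finsupp.support_smul_eq hc]

/-- the part below `j` -/
noncomputable def lo (j : ℕ) (v : ℕ →₀ F) : ℕ →₀ F := v.filter (· < j)

/-- the part from `j` on -/
noncomputable def hi (j : ℕ) (v : ℕ →₀ F) : ℕ →₀ F := v.filter (j ≤ ·)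

theorem lo_apply (j : ℕ) (v : ℕ →₀ F) (k : ℕ) : lo j v k = if k < j then v k else 0 := by
  simp [lo, Finsupp.filter_apply]

theorem hi_apply (j : ℕ) (v : ℕ →₀ F) (k : ℕ) : hi j v k = if j ≤ k then v k else 0 := by
  simp [hi, Finsupp.filter_apply]

theorem lo_add_hi (j : ℕ) (v : ℕ →₀ F) : lo j v + hi j v = v := by
  ext k
  simp only [Finsupp.add_apply, lo_apply, hi_apply]
  by_cases h : k < j
  · simp [h, not_le.2 h]
  · simp [h, not_lt.1 h]

theorem hi_smul (j : ℕ) (c : F) (v : ℕ →₀ F) : hi j (c • v) = c • hi j v := by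
  ext k
  simp [hi_apply]

theorem lo_smul (j : ℕ) (c : F) (v : ℕ →₀ F) : lo j (c • v) = c • lo j v := by
  ext k
  simp [lo_apply]

/-- the positions followed by a change of coefficient -/
def Ch (v : ℕ →₀ F) (j : ℕ) : Prop :=
  ∃ j', j < j' ∧ v j' ≠ 0 ∧ (∀ k, j < k → k < j' → v k = 0) ∧ v j ≠ v j'

/-- the oscillation -/
noncomputable def osc (v : ℕ →₀ F) : ℕ := (v.support.filter (Ch v)).card

theorem osc_smul {c : F} (hc : c ≠ 0) (v : ℕ →₀ F) : osc (c • v) = osc v := by
  simp only [osc, Finsupp.support_smul_eq hc]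
  congr 1
  refine Finset.filter_congr fun j _ => ?_
  simp [Ch, hc]

theorem osc_le (v : ℕ →₀ F) : osc v ≤ lst v := by
  rw [osc, ← Finset.card_range (lst v)]
  refine Finset.card_le_card fun j hj => ?_
  obtain ⟨j', h1, h2, -⟩ := (Finset.mem_filter.1 hj).2
  exact Finset.mem_range.2 (h1.trans_le (le_lst h2))

theorem osc_add {u w : ℕ →₀ F} (hu : u ≠ 0) (hw : w ≠ 0) (h : lst u < fst w) :
    osc (u + w) = osc u + osc w + if u (lst u) = w (fst w) then 0 else 1 := by
  have hu0 : ∀ k, lst u < k → u k = 0 := fun k hk => zero_of_lst_lt hk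
  have hw0 : ∀ k, k < fst w → w k = 0 := fun k hk => zero_of_lt_fst hk
  have hlo : ∀ k, k ≤ lst u → (u + w) k = u k := fun k hk => by
    rw [Finsupp.add_apply, hw0 k (by omega), add_zero]
  have hhi : ∀ k, lst u < k → (u + w) k = w k := fun k hk => by
    rw [Finsupp.add_apply, hu0 k hk, zero_add]
  have hdisj : Disjoint u.support w.support := by
    rw [Finset.disjoint_left]
    intro k hk hk'
    have := le_lst (Finsupp.mem_support_iff.1 hk)
    have := fst_le (Finsupp.mem_support_iff.1 hk')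
    omega
  have e1 : w.support.filter (Ch (u + w)) = w.support.filter (Ch w) := by
    refine Finset.filter_congr fun j hj => ?_
    have hj' : lst u < j := h.trans_le (fst_le (Finsupp.mem_support_iff.1 hj))
    refine exists_congr fun j' => and_congr_right fun hjj => ?_
    rw [hhi j hj', hhi j' (by omega)]
    refine and_congr_right fun _ => and_congr_left fun _ => forall_congr' fun k =>
      forall_congr' fun hk => by rw [hhi k (by omega)]
  have e2 : ∀ j, j < lst u → (Ch (u + w) j ↔ Ch u j) := by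
    intro j hj
    constructor
    · rintro ⟨j', h1, h2, h3, h4⟩
      have hj' : j' ≤ lst u := by
        by_contra hlt
        have := h3 (lst u) hj (not_le.1 hlt)
        rw [hlo _ le_rfl] at this
        exact lst_ne hu this
      refine ⟨j', h1, by rwa [hlo _ hj'] at h2, fun k hk hk' => ?_, ?_⟩
      · rw [← hlo k (by omega)]
        exact h3 k hk hk'
      · rwa [hlo _ hj', hlo _ hj.le] at h4
    · rintro ⟨j', h1, h2, h3, h4⟩
      have hj' : j' ≤ lst u := le_lst h2
      refine ⟨j', h1, by rwa [hlo _ hj'], fun k hk hk' => ?_, ?_⟩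
      · rw [hlo k (by omega)]
        exact h3 k hk hk'
      · rwa [hlo _ hj', hlo _ hj.le]
  have e3 : ¬ Ch u (lst u) := by
    rintro ⟨j', h1, h2, -⟩
    exact h2 (hu0 _ h1)
  have e4 : Ch (u + w) (lst u) ↔ u (lst u) ≠ w (fst w) := by
    constructor
    · rintro ⟨j', h1, h2, h3, h4⟩
      rw [hhi _ h1] at h2 h4
      rw [hlo _ le_rfl] at h4
      have : j' = fst w := by
        refine le_antisymm ?_ (fst_le h2)
        by_contra hlt
        have := h3 (fst w) h (not_le.1 hlt)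
        rw [hhi _ h] at this
        exact fst_ne hw this
      rwa [this] at h4
    · intro hne
      refine ⟨fst w, h, by rw [hhi _ h]; exact fst_ne hw, fun k hk hk' => ?_, ?_⟩
      · rw [hhi k hk]
        exact hw0 k hk'
      · rwa [hhi _ h, hlo _ le_rfl]
  have hmem : lst u ∈ u.support := Finsupp.mem_support_iff.2 (lst_ne hu)
  have e5 : ∀ j ∈ u.support, j ≠ lst u → j < lst u := fun j hj hne =>
    lt_of_le_of_ne (le_lst (Finsupp.mem_support_iff.1 hj)) hne
  rw [osc, Finsupp.support_add_eq hdisj, Finset.filter_union,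
    Finset.card_union_of_disjoint (Finset.disjoint_filter_filter hdisj), e1]
  have e6 : (u.support.filter (Ch (u + w))).card =
      osc u + if u (lst u) = w (fst w) then 0 else 1 := by
    split_ifs with hc
    · rw [osc, add_zero]
      congr 1
      refine Finset.filter_congr fun j hj => ?_
      by_cases hjl : j = lst u
      · rw [hjl, e4]
        simp [e3, hc]
      · exact e2 j (e5 j hj hjl)
    · have : u.support.filter (Ch (u + w)) = insert (lst u) (u.support.filter (Ch u)) := by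
        ext j
        simp only [Finset.mem_filter, Finset.mem_insert]
        by_cases hjl : j = lst u
        · rw [hjl, e4]
          simp [hc, lst_ne hu]
        · simp only [hjl, false_or]
          exact and_congr_right fun hj => e2 j (e5 j hj hjl)
      rw [this, Finset.card_insert_of_notMem (by simp [e3]), osc]
  have e7 : (w.support.filter (Ch w)).card = osc w := rfl
  rw [e6, e7]
  ring

theorem fst_add {u w : ℕ →₀ F} (hu : u ≠ 0) (h : lst u < fst w) :
    fst (u + w) = fst u ∧ (u + w) (fst u) = u (fst u) := by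
  have h1 := fst_le_lst hu
  have h2 : (u + w) (fst u) = u (fst u) := by
    rw [Finsupp.add_apply, zero_of_lt_fst (v := w) (by omega), add_zero]
  refine ⟨fst_eq (by rw [h2]; exact fst_ne hu) fun j hj => ?_, h2⟩
  rw [Finsupp.add_apply, zero_of_lt_fst hj, zero_of_lt_fst (v := w) (by omega), add_zero]

theorem lst_add {u w : ℕ →₀ F} (hw : w ≠ 0) (h : lst u < fst w) :
    lst (u + w) = lst w ∧ (u + w) (lst w) = w (lst w) := by
  have h1 := fst_le_lst hw
  have h2 : (u + w) (lst w) = w (lst w) := by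
    rw [Finsupp.add_apply, zero_of_lst_lt (v := u) (by omega), zero_add]
  refine ⟨lst_eq (by rw [h2]; exact lst_ne hw) fun j hj => ?_, h2⟩
  rw [Finsupp.add_apply, zero_of_lst_lt hj, zero_of_lst_lt (v := u) (by omega), add_zero]

theorem add_ne_zero {u w : ℕ →₀ F} (hu : u ≠ 0) (h : lst u < fst w) : u + w ≠ 0 := by
  intro h0
  have := (fst_add hu h).2
  rw [h0] at this
  exact fst_ne hu this.symm

/-- a subspace containing vectors with arbitrarily late last position is infinite-dimensional -/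
theorem not_fd {X : Submodule F (ℕ →₀ F)} (h : ∀ N, ∃ v ∈ X, v ≠ 0 ∧ N ≤ lst v) :
    ¬ FiniteDimensional F X := by
  intro hfd
  obtain ⟨S, hS⟩ := (Submodule.fg_iff_finiteDimensional X).2 hfd
  obtain ⟨v, hv, hv0, hN⟩ := h (S.sup lst + 1)
  rw [← hS] at hv
  have : ∀ w ∈ Submodule.span F (S : Set (ℕ →₀ F)), w (lst v) = 0 := by
    intro w hw
    induction hw using Submodule.span_induction with
    | mem x hx => exact zero_of_lst_lt (lt_of_le_of_lt (Finset.le_sup (f := lst) hx) hN)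
    | zero => rfl
    | add x y _ _ hx hy => simp [hx, hy]
    | smul a x _ hx => simp [hx]
  exact lst_ne hv0 (this v hv)

/-- an infinite-dimensional subspace contains nonzero vectors supported arbitrarily late -/
theorem exists_late {X : Submodule F (ℕ →₀ F)} (hX : ¬ FiniteDimensional F X) (N : ℕ) :
    ∃ v ∈ X, v ≠ 0 ∧ N ≤ fst v := by
  by_contra hcon
  push Not at hcon
  apply hX
  let φ : (ℕ →₀ F) →ₗ[F] (Fin N → F) := LinearMap.pi fun i => Finsupp.lapply i.1
  refine FiniteDimensional.of_injective (φ.domRestrict X) fun v w hvw => ?_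
  by_contra hne
  have hv0 : v.1 - w.1 ≠ 0 := fun h => hne (Subtype.ext (sub_eq_zero.1 h))
  have h1 := congrFun hvw ⟨_, hcon _ (X.sub_mem v.2 w.2) hv0⟩
  refine fst_ne hv0 ?_
  rw [Finsupp.sub_apply, sub_eq_zero]
  exact h1

/-- normalised vectors: first and last coefficient one -/
def Nrm (v : ℕ →₀ F) : Prop := v ≠ 0 ∧ v (fst v) = 1 ∧ v (lst v) = 1

theorem exists_nrm {X : Submodule F (ℕ →₀ F)} (hX : ¬ FiniteDimensional F X) (N : ℕ) :
    ∃ v ∈ X, Nrm v ∧ N ≤ fst v := by
  obtain ⟨u, hu, hu0, hN⟩ := exists_late hX N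
  obtain ⟨w, hw, hw0, hN'⟩ := exists_late hX (lst u + 1)
  have h1 : (u (fst u))⁻¹ ≠ 0 := inv_ne_zero (fst_ne hu0)
  have h2 : (w (lst w))⁻¹ ≠ 0 := inv_ne_zero (lst_ne hw0)
  have hlt : lst ((u (fst u))⁻¹ • u) < fst ((w (lst w))⁻¹ • w) := by
    rw [lst_smul h1, fst_smul h2]
    exact hN'
  have hu' : (u (fst u))⁻¹ • u ≠ 0 := smul_ne_zero h1 hu0
  have hw' : (w (lst w))⁻¹ • w ≠ 0 := smul_ne_zero h2 hw0
  obtain ⟨e1, e2⟩ := fst_add hu' hlt
  obtain ⟨e3, e4⟩ := lst_add hw' hlt
  refine ⟨_, X.add_mem (X.smul_mem _ hu) (X.smul_mem _ hw), ⟨add_ne_zero hu' hlt, ?_, ?_⟩, ?_⟩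
  · rw [e1, e2, fst_smul h1, Finsupp.smul_apply, smul_eq_mul, inv_mul_cancel₀ (fst_ne hu0)]
  · rw [e3, e4, lst_smul h2, Finsupp.smul_apply, smul_eq_mul, inv_mul_cancel₀ (lst_ne hw0)]
  · rw [e1, fst_smul h1]
    exact hN

/-- the oscillation can be tuned through an interval -/
theorem tune {θ : F} (h0 : θ ≠ 0) (h1 : θ ≠ 1) {X : Submodule F (ℕ →₀ F)}
    (hX : ¬ FiniteDimensional F X) {z : ℕ →₀ F} (hz : z ∈ X) (hn : Nrm z) (K : ℕ) :
    ∃ o L : ℕ, ∀ r ≤ K, ∃ τ ∈ X, τ ≠ 0 ∧ fst τ = fst z ∧ τ (fst z) = 1 ∧ lst τ ≤ L ∧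
      osc τ = o + r := by
  induction K with
  | zero =>
    refine ⟨osc z, lst z, fun r hr => ⟨z, hz, hn.1, rfl, hn.2.1, le_rfl, ?_⟩⟩
    omega
  | succ K ih =>
    obtain ⟨o, L, h⟩ := ih
    obtain ⟨w, hw, hwn, hL⟩ := exists_nrm hX (L + 1)
    refine ⟨o + osc w, lst w, fun r hr => ?_⟩
    have key : ∀ (c : F), c ≠ 0 → ∀ r' ≤ K, ∃ τ ∈ X, τ ≠ 0 ∧ fst τ = fst z ∧ τ (fst z) = 1 ∧
        lst τ ≤ lst w ∧ osc τ = o + r' + osc w + if 1 = c then 0 else 1 := by
      intro c hc r' hr'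
      obtain ⟨τ, hτ, hτ0, e1, e2, e3, e4⟩ := h r' hr'
      have hd : c * τ (lst τ) ≠ 0 := mul_ne_zero hc (lst_ne hτ0)
      have hlt : lst τ < fst ((c * τ (lst τ)) • w) := by
        rw [fst_smul hd]
        omega
      have hw' : (c * τ (lst τ)) • w ≠ 0 := smul_ne_zero hd hwn.1
      refine ⟨τ + (c * τ (lst τ)) • w, X.add_mem hτ (X.smul_mem _ hw), add_ne_zero hτ0 hlt,
        (fst_add hτ0 hlt).1.trans e1, ?_, ?_, ?_⟩
      · rw [← e1, (fst_add hτ0 hlt).2, e1, e2]
      · rw [(lst_add hw' hlt).1, lst_smul hd]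
      · rw [osc_add hτ0 hw' hlt, e4, osc_smul hd, fst_smul hd, Finsupp.smul_apply, hwn.2.1,
          smul_eq_mul, mul_one]
        congr 2
        refine propext ⟨fun h => ?_, fun h => by rw [← h, one_mul]⟩
        exact mul_right_cancel₀ (lst_ne hτ0) (by rw [one_mul]; exact h)
    rcases Nat.eq_zero_or_pos r with rfl | hr0
    · obtain ⟨τ, a1, a2, a3, a4, a5, a6⟩ := key 1 one_ne_zero 0 (Nat.zero_le _)
      exact ⟨τ, a1, a2, a3, a4, a5, by simpa using a6⟩
    · obtain ⟨τ, a1, a2, a3, a4, a5, a6⟩ := key θ h0 (r - 1) (by omega)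
      refine ⟨τ, a1, a2, a3, a4, a5, ?_⟩
      rw [a6, if_neg (Ne.symm h1)]
      omega

end Pool.Agent.H502Z.Vec
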