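import Pool.Agent.H502Z.Vec.Osc

set_option autoImplicit false

namespace Pool.Agent.H502Z.Vec

open Classical

variable {F : Type} [Field F] [Countable F]

/-- an injective code -/
noncomputable def enc : Option (ℕ →₀ F) → ℕ :=
  Classical.choose (Countable.exists_injective_nat (Option (ℕ →₀ F)))

theorem enc_inj : Function.Injective (enc (F := F)) :=
  Classical.choose_spec (Countable.exists_injective_nat (Option (ℕ →₀ F)))

/-- the index of a pointer target -/
noncomputable def idx (o : Option (ℕ →₀ F)) : ℕ :=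
  Nat.pair (o.elim 0 fun p => lst p + 1) (enc o)

theorem lt_idx (p : ℕ →₀ F) : lst p + 1 ≤ idx (some p) := Nat.left_le_pair _ _

/-- `v` points to `o` -/
def Pt (v : ℕ →₀ F) (o : Option (ℕ →₀ F)) : Prop :=
  2 ^ idx o ∣ osc v ∧ ¬ 2 ^ (idx o + 1) ∣ osc v

theorem Pt.unique {v : ℕ →₀ F} {o o' : Option (ℕ →₀ F)} (h : Pt v o) (h' : Pt v o') : o = o' := by
  have : idx o = idx o' := by
    by_contra hne
    rcases lt_or_gt_of_ne hne with hlt | hlt
    · exact h.2 ((pow_dvd_pow 2 hlt).trans h'.1)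
    · exact h'.2 ((pow_dvd_pow 2 hlt).trans h.1)
  exact enc_inj (Nat.pair_eq_pair.1 this).2

theorem pt_smul {c : F} (hc : c ≠ 0) (v : ℕ →₀ F) (o : Option (ℕ →₀ F)) :
    Pt (c • v) o ↔ Pt v o := by
  simp [Pt, osc_smul hc]

/-- parent relation -/
def Par (p v : ℕ →₀ F) : Prop := Pt v (some p)

/-- ancestor relation -/
def Anc : (ℕ →₀ F) → (ℕ →₀ F) → Prop := Relation.TransGen Par

/-- the span of the ancestors -/
noncomputable def H (v : ℕ →₀ F) : Submodule F (ℕ →₀ F) := Submodule.span F {p | Anc p v}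

theorem anc_congr {v v' : ℕ →₀ F} (h : ∀ p, Par p v → Par p v') {r : ℕ →₀ F} (hr : Anc r v) :
    Anc r v' := by
  obtain ⟨b, h1, h2⟩ := Relation.TransGen.tail'_iff.1 hr
  exact Relation.TransGen.tail'_iff.2 ⟨b, h1, h b h2⟩

theorem par_of_pt {v v' : ℕ →₀ F} {o : Option (ℕ →₀ F)} (h : Pt v o) (h' : Pt v' o) :
    ∀ p, Par p v → Par p v' := fun p hp => by
  rw [Par, ← h.unique hp]
  exact h'

theorem H_congr {v v' : ℕ →₀ F} {o : Option (ℕ →₀ F)} (h : Pt v o) (h' : Pt v' o) :
    H v = H v' := by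
  simp only [H]
  congr 1
  ext r
  exact ⟨anc_congr (par_of_pt h h'), anc_congr (par_of_pt h' h)⟩

theorem H_smul {c : F} (hc : c ≠ 0) (v : ℕ →₀ F) : H (c • v) = H v := by
  simp only [H]
  congr 1
  ext r
  exact ⟨anc_congr fun p => (pt_smul hc v _).1, anc_congr fun p => (pt_smul hc v _).2⟩

theorem anc_mem {p v : ℕ →₀ F} (h : Anc p v) : p ∈ H v := Submodule.subset_span h

theorem anc_le {p v : ℕ →₀ F} (h : Anc p v) : H p ≤ H v :=
  Submodule.span_mono fun _ hr => Relation.TransGen.trans hr h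

theorem anc_total {p p' v : ℕ →₀ F} (h : Anc p v) (h' : Anc p' v) :
    p = p' ∨ Anc p p' ∨ Anc p' p := by
  have U : Relator.RightUnique (Function.swap (Par (F := F))) := fun a b c h1 h2 =>
    Option.some_injective _ (Pt.unique h1 h2)
  rcases Relation.ReflTransGen.total_of_right_unique U
    (Relation.reflTransGen_swap.2 h.to_reflTransGen)
    (Relation.reflTransGen_swap.2 h'.to_reflTransGen) with h1 | h1
  · rcases Relation.reflTransGen_iff_eq_or_transGen.1 (Relation.reflTransGen_swap.1 h1) with e | e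
    · exact Or.inl e
    · exact Or.inr (Or.inr e)
  · rcases Relation.reflTransGen_iff_eq_or_transGen.1 (Relation.reflTransGen_swap.1 h1) with e | e
    · exact Or.inl e.symm
    · exact Or.inr (Or.inl e)

/-- the measure for the recursion -/
noncomputable def msr (v : ℕ →₀ F) : ℕ := (lst v + 1) ^ 2 + v.support.card

omit [Countable F] in
theorem card_le (v : ℕ →₀ F) : v.support.card ≤ lst v + 1 := by
  rw [← Finset.card_range (lst v + 1)]
  exact Finset.card_le_card fun j hj =>
    Finset.mem_range.2 (Nat.lt_succ_of_le (le_lst (Finsupp.mem_support_iff.1 hj)))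

omit [Countable F] in
theorem msr_lt {p v : ℕ →₀ F} (hv : v ≠ 0) (h : lst p < fst v) : msr p < msr v := by
  have h1 := card_le p
  have h2 := fst_le_lst hv
  have h3 : lst p + 2 ≤ lst v + 1 := by omega
  have h4 := Nat.pow_le_pow_left h3 2
  simp only [msr]
  nlinarith

omit [Countable F] in
theorem card_hi_lt {v : ℕ →₀ F} (hv : v ≠ 0) {j : ℕ} (h : fst v < j) :
    (hi j v).support.card < v.support.card := by
  refine Finset.card_lt_card ⟨fun k hk => ?_, fun hsub => ?_⟩
  · rw [Finsupp.mem_support_iff, hi_apply] at hk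
    rw [Finsupp.mem_support_iff]
    intro h0
    simp [h0] at hk
  · have := hsub (Finsupp.mem_support_iff.2 (fst_ne hv))
    rw [Finsupp.mem_support_iff, hi_apply, if_neg (by omega)] at this
    exact this rfl

omit [Countable F] in
theorem msr_hi_lt {v : ℕ →₀ F} (hv : v ≠ 0) {j : ℕ} (h : fst v < j) : msr (hi j v) < msr v := by
  have h1 := card_hi_lt hv h
  have h2 : lst (hi j v) ≤ lst v := by
    refine Finset.sup_mono fun k hk => ?_
    rw [Finsupp.mem_support_iff, hi_apply] at hk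
    rw [Finsupp.mem_support_iff]
    intro h0
    simp [h0] at hk
  have h4 := Nat.pow_le_pow_left (Nat.succ_le_succ h2) 2
  simp only [msr]
  simp only [Nat.succ_eq_add_one] at h4
  omega

/-- admissible vectors -/
noncomputable def Adm : (ℕ →₀ F) → Prop :=
  (measure (msr (F := F))).wf.fix fun v IH => v ≠ 0 ∧
    (Pt v none ∨ ∃ p, ∃ h : msr p < msr v, Pt v (some p) ∧ lst p < fst v ∧ IH p h) ∧
    ¬ ∃ j, ∃ h : msr (hi j v) < msr v, fst v < j ∧ IH (hi j v) h ∧
      ∃ l : ℕ →₀ F, (∀ k, fst v ≤ k → l k = 0) ∧ l + lo j v ∈ H (hi j v)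

/-- `v` is blocked at the cut `j` -/
def Blk (v : ℕ →₀ F) (j : ℕ) : Prop :=
  fst v < j ∧ Adm (hi j v) ∧ ∃ l : ℕ →₀ F, (∀ k, fst v ≤ k → l k = 0) ∧ l + lo j v ∈ H (hi j v)

theorem adm_iff (v : ℕ →₀ F) : Adm v ↔ v ≠ 0 ∧
    (Pt v none ∨ ∃ p, Pt v (some p) ∧ lst p < fst v ∧ Adm p) ∧ ¬ ∃ j, Blk v j := by
  rw [Adm, WellFounded.fix_eq]
  refine and_congr_right fun hv => and_congr (or_congr_right (exists_congr fun p => ?_))
    (not_congr (exists_congr fun j => ?_))
  · exact ⟨fun ⟨_, h⟩ => h, fun h => ⟨msr_lt hv h.2.1, h⟩⟩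
  · exact ⟨fun ⟨_, h⟩ => h, fun h => ⟨msr_hi_lt hv h.1, h⟩⟩

theorem Adm.ne {v : ℕ →₀ F} (h : Adm v) : v ≠ 0 := ((adm_iff v).1 h).1

theorem Adm.pt {v : ℕ →₀ F} (h : Adm v) : ∃ o, Pt v o := by
  rcases ((adm_iff v).1 h).2.1 with h | ⟨p, h, -⟩
  · exact ⟨_, h⟩
  · exact ⟨_, h⟩

theorem Adm.par {p v : ℕ →₀ F} (h : Adm v) (hp : Par p v) : Adm p ∧ lst p < fst v := by
  rcases ((adm_iff v).1 h).2.1 with h | ⟨q, h1, h2, h3⟩
  · exact absurd (h.unique hp) (by simp)
  · obtain rfl := Option.some_injective _ (h1.unique hp)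
    exact ⟨h3, h2⟩

theorem Adm.anc {p v : ℕ →₀ F} (h : Adm v) (hp : Anc p v) : Adm p ∧ lst p < fst v := by
  induction hp with
  | single h1 => exact h.par h1
  | tail _ h2 ih =>
    obtain ⟨h3, h4⟩ := h.par h2
    obtain ⟨h5, h6⟩ := ih h3
    exact ⟨h5, h6.trans_le ((fst_le_lst h3.ne).trans h4.le)⟩

theorem Adm.below {v w : ℕ →₀ F} (h : Adm v) (hw : w ∈ H v) {k : ℕ} (hk : fst v ≤ k) :
    w k = 0 := by
  induction hw using Submodule.span_induction with
  | mem x hx => exact zero_of_lst_lt ((h.anc hx).2.trans_le hk)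
  | zero => rfl
  | add x y _ _ hx hy => simp [hx, hy]
  | smul a x _ hx => simp [hx]

theorem Adm.smul {v : ℕ →₀ F} (h : Adm v) {c : F} (hc : c ≠ 0) : Adm (c • v) := by
  induction hn : v.support.card using Nat.strong_induction_on generalizing v c with
  | _ n ih =>
    obtain ⟨h1, h2, h3⟩ := (adm_iff v).1 h
    refine (adm_iff _).2 ⟨smul_ne_zero hc h1, ?_, ?_⟩
    · simpa only [pt_smul hc, fst_smul hc] using h2
    · rintro ⟨j, a1, a2, l, a3, a4⟩
      rw [fst_smul hc] at a1 a3
      rw [hi_smul] at a2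
      rw [hi_smul, H_smul hc, lo_smul] at a4
      have a5 := ih _ (by
        rw [Finsupp.support_smul_eq hc, ← hn]
        exact card_hi_lt h1 a1) a2 (inv_ne_zero hc) rfl
      rw [smul_smul, inv_mul_cancel₀ hc, one_smul] at a5
      refine h3 ⟨j, a1, a5, c⁻¹ • l, fun k hk => by simp [a3 k hk], ?_⟩
      have := (H (hi j v)).smul_mem c⁻¹ a4
      rwa [smul_add, smul_smul, inv_mul_cancel₀ hc, one_smul] at this

/-- `p` is, up to a scalar, the top block of `w` -/
def Rep (w p : ℕ →₀ F) : Prop := Adm p ∧ ∃ c : F, c ≠ 0 ∧ w - c • p ∈ H p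

theorem Adm.rep {p : ℕ →₀ F} (h : Adm p) : Rep p p := ⟨h, 1, one_ne_zero, by simp⟩

theorem Rep.lst {w p : ℕ →₀ F} (h : Rep w p) : w ≠ 0 ∧ lst w = lst p := by
  obtain ⟨hp, c, hc, hw⟩ := h
  have e : ∀ k, fst p ≤ k → w k = c * p k := fun k hk => by
    have := hp.below hw hk
    rwa [Finsupp.sub_apply, sub_eq_zero] at this
  have h1 : w (Vec.lst p) ≠ 0 := by
    rw [e _ (fst_le_lst hp.ne)]
    exact mul_ne_zero hc (lst_ne hp.ne)
  refine ⟨by rintro rfl; exact h1 rfl, lst_eq h1 fun j hj => ?_⟩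
  rw [e j ((fst_le_lst hp.ne).trans hj.le), zero_of_lst_lt hj, mul_zero]

theorem rep_aux {w p p' : ℕ →₀ F} (h : Rep w p) (h' : Rep w p') (hle : fst p' ≤ fst p) :
    ∃ o, Pt p o ∧ Pt p' o := by
  obtain ⟨hp, c, hc, hw⟩ := h
  obtain ⟨hp', c', hc', hw'⟩ := h'
  have e : hi (fst p) (c' • p') = c • p := by
    ext k
    rw [hi_apply]
    split_ifs with hk
    · have a1 := hp.below hw hk
      have a2 := hp'.below hw' (hle.trans hk)
      rw [Finsupp.sub_apply, sub_eq_zero] at a1 a2
      rw [← a1, ← a2]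
    · simp [zero_of_lt_fst (not_le.1 hk)]
  rcases hle.lt_or_eq with hlt | heq
  · exfalso
    refine ((adm_iff _).1 (hp'.smul hc')).2.2 ⟨fst p, by rwa [fst_smul hc'], ?_, w - c' • p',
      fun k hk => hp'.below hw' (by rwa [fst_smul hc'] at hk), ?_⟩
    · rw [e]
      exact hp.smul hc
    · rw [e, H_smul hc]
      convert hw using 1
      rw [← e, sub_add_eq_add_sub, sub_eq_sub_iff_add_eq_add, add_assoc, lo_add_hi]
  · obtain ⟨o, ho⟩ := hp.pt
    have e' : c' • p' = c • p := by
      rw [← e]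
      ext k
      rw [hi_apply]
      split_ifs with hk
      · rfl
      · simp [zero_of_lt_fst (heq ▸ not_le.1 hk)]
    refine ⟨o, ho, ?_⟩
    rw [← pt_smul hc', e', pt_smul hc]
    exact ho

theorem Rep.unique {w p p' : ℕ →₀ F} (h : Rep w p) (h' : Rep w p') : ∃ o, Pt p o ∧ Pt p' o := by
  rcases le_total (fst p') (fst p) with hle | hle
  · exact rep_aux h h' hle
  · obtain ⟨o, h1, h2⟩ := rep_aux h' h hle
    exact ⟨o, h2, h1⟩

theorem Rep.mem {w p v : ℕ →₀ F} (h : Rep w p) (hp : Anc p v) : w ∈ H v := by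
  obtain ⟨-, c, -, hw⟩ := h
  simpa using (H v).add_mem (anc_le hp hw) ((H v).smul_mem c (anc_mem hp))

theorem H_none {v : ℕ →₀ F} (h : Pt v none) : H v = ⊥ := by
  rw [H, Submodule.span_eq_bot]
  intro r hr
  obtain ⟨b, -, h2⟩ := Relation.TransGen.tail'_iff.1 hr
  exact absurd (h.unique h2) (by simp)

theorem H_some {v p : ℕ →₀ F} (h : Pt v (some p)) : H v = H p ⊔ Submodule.span F {p} := by
  rw [H, H, ← Submodule.span_union]
  congr 1
  ext r
  constructor
  · intro hr
    obtain ⟨b, h1, h2⟩ := Relation.TransGen.tail'_iff.1 hr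
    obtain rfl := Option.some_injective _ (h.unique h2)
    rcases Relation.reflTransGen_iff_eq_or_transGen.1 h1 with e | e
    · exact Or.inr e.symm
    · exact Or.inl e
  · rintro (hr | rfl)
    · exact Relation.TransGen.tail hr h
    · exact Relation.TransGen.single h

theorem exists_rep {v w : ℕ →₀ F} (h : Adm v) (hw : w ∈ H v) (hw0 : w ≠ 0) :
    ∃ p, Anc p v ∧ Rep w p := by
  induction hn : lst v using Nat.strong_induction_on generalizing v with
  | _ n ih =>
    rcases ((adm_iff v).1 h).2.1 with h1 | ⟨p, h1, h2, h3⟩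
    · rw [H_none h1] at hw
      exact absurd hw hw0
    · rw [H_some h1, Submodule.mem_sup] at hw
      obtain ⟨y, hy, z, hz, e⟩ := hw
      obtain ⟨c, rfl⟩ := Submodule.mem_span_singleton.1 hz
      by_cases hc : c = 0
      · rw [hc, zero_smul, add_zero] at e
        obtain ⟨q, a1, a2⟩ := ih _ (hn ▸ h2.trans_le (fst_le_lst h.ne)) h3 (e ▸ hy) rfl
        exact ⟨q, Relation.TransGen.tail a1 h1, a2⟩
      · exact ⟨p, Relation.TransGen.single h1, h3, c, hc, by simpa [← e] using hy⟩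

theorem anc_of_lt {p q v : ℕ →₀ F} (h : Adm v) (hp : Anc p v) (hq : Anc q v)
    (hlt : lst q < lst p) : Anc q p := by
  rcases anc_total hq hp with e | e | e
  · rw [e] at hlt
    exact absurd hlt (lt_irrefl _)
  · exact e
  · have := ((h.anc hq).1.anc e).2
    have := fst_le_lst (h.anc hq).1.ne
    omega

theorem mem_H_of_lt {p v r : ℕ →₀ F} (h : Adm v) (hp : Anc p v) (hr : r ∈ H v)
    (hlt : lst r < lst p) : r ∈ H p := by
  by_cases hr0 : r = 0
  · rw [hr0]
    exact (H p).zero_mem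
  obtain ⟨q, a1, a2⟩ := exists_rep h hr hr0
  exact a2.mem (anc_of_lt h hp a1 (a2.lst.2 ▸ hlt))

theorem split {t g h : ℕ →₀ F} (ht : Adm t) (hg : g ∈ H t) (hh : h ∈ H t) {f : ℕ}
    (hgf : g f = 0) (hhf : h f ≠ 0) : hi f g ∈ H t := by
  obtain ⟨p, hp, hpf⟩ : ∃ p, Anc p t ∧ p f ≠ 0 := by
    by_contra hcon
    push Not at hcon
    apply hhf
    clear hhf
    induction hh using Submodule.span_induction with
    | mem x hx => exact hcon x hx
    | zero => rfl
    | add x y _ _ hx hy => simp [hx, hy]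
    | smul a x _ hx => simp [hx]
  induction hn : lst g using Nat.strong_induction_on generalizing g with
  | _ n ih =>
    by_cases hg0 : g = 0
    · have : hi f g = 0 := by
        ext k
        simp [hi_apply, hg0]
      rw [this]
      exact (H t).zero_mem
    obtain ⟨r, hr, hrep⟩ := exists_rep ht hg hg0
    have hl := hrep.lst.2
    obtain ⟨hra, c, hc, hw⟩ := hrep
    rcases anc_total hr hp with e | e | e
    · subst e
      have := hra.below hw (fst_le hpf)
      rw [Finsupp.sub_apply, hgf, zero_sub, neg_eq_zero, Finsupp.smul_apply, smul_eq_mul] at this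
      exact absurd this (mul_ne_zero hc hpf)
    · have h1 := ((ht.anc hp).1.anc e).2
      have h2 := fst_le hpf
      have : hi f g = 0 := by
        ext k
        rw [hi_apply]
        split_ifs with hk
        · exact zero_of_lst_lt (by omega)
        · rfl
      rw [this]
      exact (H t).zero_mem
    · have h1 := (hra.anc e).2
      have h2 := le_lst hpf
      have h3 : hi f g = hi f (g - c • r) + c • r := by
        ext k
        simp only [Finsupp.add_apply, hi_apply, Finsupp.sub_apply]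
        split_ifs with hk
        · simp
        · simp [zero_of_lt_fst (v := r) (k := k) (by omega)]
      rw [h3]
      refine (H t).add_mem ?_ ((H t).smul_mem c (anc_mem hr))
      by_cases h0 : g - c • r = 0
      · have : hi f (g - c • r) = 0 := by
          ext k
          simp [hi_apply, h0]
        rw [this]
        exact (H t).zero_mem
      refine ih _ ?_ (anc_le hr hw) ?_ rfl
      · have h4 : lst (g - c • r) < fst r := by
          by_contra h5
          exact lst_ne h0 (hra.below hw (not_lt.1 h5))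
        have := fst_le_lst hra.ne
        omega
      · simp [hgf, zero_of_lt_fst (v := r) (k := f) (by omega)]

/-- increasing chains of admissible vectors -/
def Chain (q : ℕ → ℕ →₀ F) : Prop := (∀ a, Adm (q a)) ∧ ∀ a, H (q a) < H (q (a + 1))

/-- the subspace of a chain -/
noncomputable def Y (q : ℕ → ℕ →₀ F) : Submodule F (ℕ →₀ F) := ⨆ a, H (q a)

theorem Chain.mono {q : ℕ → ℕ →₀ F} (h : Chain q) : StrictMono fun a => H (q a) :=
  strictMono_nat_of_lt_succ h.2

theorem Chain.mem {q : ℕ → ℕ →₀ F} (h : Chain q) {w : ℕ →₀ F} : w ∈ Y q ↔ ∃ a, w ∈ H (q a) :=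
  Submodule.mem_iSup_of_directed _ h.mono.monotone.directed_le

theorem Chain.not_fd {q : ℕ → ℕ →₀ F} (h : Chain q) : ¬ FiniteDimensional F (Y q) := by
  intro hfd
  have hle : ∀ a, H (q a) ≤ Y q := fun a => le_iSup (fun a => H (q a)) a
  have hf : ∀ a, FiniteDimensional F (H (q a)) := fun a => Submodule.finiteDimensional_of_le (hle a)
  have hs : StrictMono fun a => Module.finrank F (H (q a)) :=
    strictMono_nat_of_lt_succ fun a => Submodule.finrank_lt_finrank_of_lt (h.2 a)
  have h1 := hs.id_le (Module.finrank F (Y q) + 1)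
  have h2 := Submodule.finrank_mono (hle (Module.finrank F (Y q) + 1))
  simp only [id] at h1
  omega

theorem Chain.le {q q' : ℕ → ℕ →₀ F} (h : Chain q) (h' : Chain q')
    (hinf : ¬ FiniteDimensional F (Y q ⊓ Y q' : Submodule F (ℕ →₀ F))) : Y q ≤ Y q' := by
  intro r hr
  obtain ⟨w, ⟨hw, hw'⟩, hw0, hN⟩ := exists_late hinf (lst r + 1)
  obtain ⟨a, ha⟩ := h.mem.1 hr
  obtain ⟨b, hb⟩ := h.mem.1 hw
  obtain ⟨b', hb'⟩ := h'.mem.1 hw'
  have ha' := h.mono.monotone (le_max_left a b) ha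
  obtain ⟨p, a1, a2⟩ := exists_rep (h.1 _) (h.mono.monotone (le_max_right a b) hb) hw0
  obtain ⟨p', a3, a4⟩ := exists_rep (h'.1 _) hb' hw0
  obtain ⟨o, a5, a6⟩ := a2.unique a4
  have h1 := fst_le_lst hw0
  have h2 := mem_H_of_lt (h.1 _) a1 ha' (by rw [← a2.lst.2]; omega)
  rw [H_congr a5 a6] at h2
  exact h'.mem.2 ⟨b', anc_le a3 h2⟩

end Pool.Agent.H502Z.Vec
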