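import Pool.Agent.H502Z.Vec.Defs
import Pool.Agent.H502Z.Mad.Main

set_option autoImplicit false

namespace Pool.Agent.H502Z.Vec

open Classical Set Filter
open scoped Pointwise

variable {F E : Type} [Field F] [AddCommGroup E] [Module F E]

theorem fd_iff [Finite F] (X : Submodule F E) : FiniteDimensional F X ↔ (X : Set E).Finite :=
  ⟨fun _ => Set.finite_coe_iff.1 (show Finite X from Module.finite_of_finite F), fun h => by
    have : Finite X := h.to_subtype
    exact Module.Finite.of_finite⟩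

attribute [local instance] Ultrafilter.add Ultrafilter.addSemigroup

theorem exists_ultra [Finite F] {𝒜 : Set (Submodule F E)} (hinf : 𝒜.Infinite) (had : IsADSub 𝒜) :
    ∃ U : Ultrafilter E, (∀ D : Set E, D ∈ U → {u | {v | u + v ∈ D} ∈ U} ∈ U) ∧
      ∀ y ∈ 𝒜, ∀ u, {v | u + v ∈ y}ᶜ ∈ U := by
  let S : Set (Ultrafilter E) := ⋂ y ∈ 𝒜, ⋂ u, {U | {v | u + v ∈ y}ᶜ ∈ U}
  have hS : ∀ U, U ∈ S ↔ ∀ y ∈ 𝒜, ∀ u, {v | u + v ∈ y}ᶜ ∈ U := fun U => by simp [S]
  have hne : S.Nonempty := by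
    obtain ⟨U, hU⟩ := Ultrafilter.exists_ultrafilter_of_finite_inter_nonempty
      {D | ∃ y ∈ 𝒜, ∃ u, {v | u + v ∈ y}ᶜ = D} (fun T hT => by
        by_contra hcon
        choose! y hy u hu using fun t (ht : t ∈ T) => hT ht
        have hcov : ⋃ t ∈ T, (-u t) +ᵥ ((y t).toAddSubgroup : Set E) = univ := by
          refine eq_univ_of_forall fun w => ?_
          by_contra hw
          refine hcon ⟨w, fun t ht => ?_⟩
          rw [← hu t ht]
          intro h
          exact hw (mem_iUnion₂.2 ⟨t, ht, u t + w, h, by simp⟩)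
        obtain ⟨t, ht, hfi⟩ := AddSubgroup.exists_finiteIndex_of_leftCoset_cover hcov
        obtain ⟨y', hy', hne⟩ := hinf.exists_notMem_finite (finite_singleton (y t))
        have h1 : Infinite y' := by
          rw [← not_finite_iff_infinite]
          intro h
          exact had.1 y' hy' Module.Finite.of_finite
        have h2 := (fd_iff _).1 (had.2 y' hy' (y t) (hy t ht) hne)
        have := AddSubgroup.finite_quotient_of_finiteIndex (H := (y t).toAddSubgroup)
        obtain ⟨c, hc⟩ := Finite.exists_infinite_fiber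
          fun w : y' => (QuotientAddGroup.mk w.1 : E ⧸ (y t).toAddSubgroup)
        rw [infinite_coe_iff] at hc
        obtain ⟨w₀, hw₀⟩ := hc.nonempty
        refine hc (Set.Finite.of_injOn (f := fun w => -w₀.1 + w.1) (fun w hw => ?_)
          (fun w _ w' _ h => Subtype.ext (add_left_cancel h)) h2)
        refine ⟨y'.add_mem (y'.neg_mem w₀.2) w.2, ?_⟩
        exact QuotientAddGroup.eq.1 ((show _ = c from hw₀).trans (show _ = c from hw).symm))
    exact ⟨U, (hS U).2 fun y hy u => hU ⟨y, hy, u, rfl⟩⟩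
  obtain ⟨U, hU, hidem⟩ := exists_idempotent_in_compact_add_subsemigroup
    (M := Ultrafilter E) Ultrafilter.continuous_add_left S hne
    (isClosed_biInter fun y _ => isClosed_iInter fun u => ultrafilter_isClosed_basic _).isCompact
    (fun U _ V hV => (hS _).2 fun y hy u => by
      refine (Ultrafilter.eventually_add U V fun v => u + v ∉ y).2 (Eventually.of_forall fun m => ?_)
      exact mem_of_superset ((hS V).1 hV y hy (u + m)) fun v hv => by
        simpa [add_assoc] using hv)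
  refine ⟨U, fun D hD => ?_, (hS U).1 hU⟩
  rw [← hidem] at hD
  exact (Ultrafilter.eventually_add U U fun v => v ∈ D).1 hD

/-- the subsums of the first terms -/
noncomputable def Sums (v : ℕ → E) : ℕ → Finset E
  | 0 => {0}
  | n + 1 => Sums v n ∪ (Sums v n).image (· + v n)

theorem mem_sums_succ {v : ℕ → E} {n : ℕ} {w : E} :
    w ∈ Sums v (n + 1) ↔ w ∈ Sums v n ∨ ∃ a ∈ Sums v n, a + v n = w := by
  rw [Sums, Finset.mem_union, Finset.mem_image]

theorem sums_mono (v : ℕ → E) : Monotone (Sums v) :=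
  monotone_nat_of_le_succ fun _ _ h => mem_sums_succ.2 (Or.inl h)

theorem zero_mem_sums (v : ℕ → E) (n : ℕ) : (0 : E) ∈ Sums v n :=
  sums_mono v (Nat.zero_le n) (by simp [Sums])

theorem self_mem_sums (v : ℕ → E) (n : ℕ) : v n ∈ Sums v (n + 1) :=
  mem_sums_succ.2 (Or.inr ⟨0, zero_mem_sums v n, zero_add _⟩)

theorem add_mem_sums (h2 : ∀ x : E, x + x = 0) (v : ℕ → E) (n : ℕ) :
    ∀ a ∈ Sums v n, ∀ b ∈ Sums v n, a + b ∈ Sums v n := by
  induction n with
  | zero => simp [Sums]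
  | succ n ih =>
    intro a ha b hb
    rcases mem_sums_succ.1 ha with ha' | ⟨a', ha', rfl⟩ <;>
      rcases mem_sums_succ.1 hb with hb' | ⟨b', hb', rfl⟩
    · exact mem_sums_succ.2 (Or.inl (ih _ ha' _ hb'))
    · exact mem_sums_succ.2 (Or.inr ⟨_, ih _ ha' _ hb', by abel⟩)
    · exact mem_sums_succ.2 (Or.inr ⟨_, ih _ ha' _ hb', by abel⟩)
    · refine mem_sums_succ.2 (Or.inl ?_)
      rw [add_add_add_comm, h2, add_zero]
      exact ih _ ha' _ hb'

theorem two_tors (hF : ∀ c : F, c = 0 ∨ c = 1) (x : E) : x + x = 0 := by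
  have : (1 + 1 : F) = 0 := (hF (1 + 1)).resolve_right (by simp)
  rw [← one_smul F x, ← add_smul, this, zero_smul]

theorem span_sums (hF : ∀ c : F, c = 0 ∨ c = 1) (v : ℕ → E) {w : E}
    (hw : w ∈ Submodule.span F (range v)) : ∃ n, w ∈ Sums v n := by
  induction hw using Submodule.span_induction with
  | mem x hx =>
    obtain ⟨n, rfl⟩ := hx
    exact ⟨_, self_mem_sums v n⟩
  | zero => exact ⟨0, zero_mem_sums v 0⟩
  | add x y _ _ hx hy =>
    obtain ⟨n, hn⟩ := hx
    obtain ⟨m, hm⟩ := hy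
    exact ⟨max n m, add_mem_sums (two_tors hF) v _ _ (sums_mono v (le_max_left _ _) hn) _
      (sums_mono v (le_max_right _ _) hm)⟩
  | smul a x _ hx =>
    rcases hF a with rfl | rfl
    · exact ⟨0, by simp [Sums]⟩
    · simpa using hx

/-- `v` eventually obeys the strategy `T` -/
def Obeys (v : ℕ → E) (T : ℕ → Finset E → Set E) : Prop :=
  ∃ k, ∀ n, k ≤ n → v n ∈ T n (Sums v n)

theorem avoid (hF : ∀ c : F, c = 0 ∨ c = 1) {U : Ultrafilter E}
    (hU : ∀ D : Set E, D ∈ U → {u | {v | u + v ∈ D} ∈ U} ∈ U) {D : Set E} (hD : D ∈ U) :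
    ∃ T : ℕ → Finset E → Set E, (∀ n S, T n S ∈ U) ∧ ∀ v, Obeys v T → ∀ y : Submodule F E,
      (∀ w ∈ y, w ∉ D) → ((Submodule.span F (range v) ⊓ y : Submodule F E) : Set E).Finite := by
  let D' : Set E := {u | u ∈ D ∧ {v | u + v ∈ D} ∈ U}
  have h1 : D' ∈ U := inter_mem hD (hU D hD)
  have h2 : ∀ u ∈ D', {v | u + v ∈ D'} ∈ U := fun u hu =>
    mem_of_superset (inter_mem hu.2 (hU _ hu.2)) fun v hv => ⟨hv.1, by
      simpa [add_assoc] using hv.2⟩
  refine ⟨fun _ S => {v | v ∈ D' ∧ ∀ u ∈ S, u ∈ D' → u + v ∈ D'}, fun _ S => ?_, ?_⟩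
  · refine inter_mem h1 ((eventually_all_finset S).2 fun u _ => ?_)
    by_cases hu : u ∈ D'
    · exact mem_of_superset (h2 u hu) fun v hv _ => hv
    · exact Eventually.of_forall fun v h => absurd h hu
  rintro v ⟨k, hk⟩ y hy
  have hA : ∀ m, ∀ c ∈ Sums (fun n => v (k + n)) m, c ∈ Sums v (k + m) ∧ (c = 0 ∨ c ∈ D') := by
    intro m
    induction m with
    | zero => simp [Sums, zero_mem_sums]
    | succ m ih =>
      intro c₀ hc₀
      rcases mem_sums_succ.1 hc₀ with hc | ⟨c, hc, rfl⟩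
      · exact ⟨mem_sums_succ.2 (Or.inl (ih _ hc).1), (ih _ hc).2⟩
      · refine ⟨mem_sums_succ.2 (Or.inr ⟨c, (ih c hc).1, rfl⟩), Or.inr ?_⟩
        rcases (ih c hc).2 with h | h
        · rw [h, zero_add]
          exact (hk _ (Nat.le_add_right _ _)).1
        · exact (hk _ (Nat.le_add_right _ _)).2 c (ih c hc).1 h
  have hB : ∀ m, ∀ w ∈ Sums v (k + m), ∃ a ∈ Sums v k, ∃ c ∈ Sums (fun n => v (k + n)) m,
      w = a + c := by
    intro m
    induction m with
    | zero => exact fun w hw => ⟨w, hw, 0, zero_mem_sums _ _, by simp⟩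
    | succ m ih =>
      intro w₀ hw₀
      rcases mem_sums_succ.1 hw₀ with hw | ⟨w, hw, rfl⟩
      · obtain ⟨a, ha, c, hc, e⟩ := ih _ hw
        exact ⟨a, ha, c, mem_sums_succ.2 (Or.inl hc), e⟩
      · obtain ⟨a, ha, c, hc, e⟩ := ih w hw
        exact ⟨a, ha, _, mem_sums_succ.2 (Or.inr ⟨c, hc, rfl⟩), by rw [e, add_assoc]; rfl⟩
  have hC : ∀ w ∈ Submodule.span F (range v), ∃ a ∈ Sums v k, ∃ m,
      ∃ c ∈ Sums (fun n => v (k + n)) m, w = a + c := by
    intro w hw
    obtain ⟨n, hn⟩ := span_sums hF v hw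
    obtain ⟨a, ha, h⟩ := hB n w (sums_mono v (Nat.le_add_left _ _) hn)
    exact ⟨a, ha, n, h⟩
  choose! f hf1 hf2 using hC
  refine Set.Finite.of_injOn (f := f) (fun w hw => hf1 w hw.1) (fun w hw w' hw' e => ?_)
    (Sums v k).finite_toSet
  obtain ⟨m, c, hc, e1⟩ := hf2 w hw.1
  obtain ⟨m', c', hc', e2⟩ := hf2 w' hw'.1
  have h3 := add_mem_sums (two_tors hF) _ _ _ (sums_mono _ (le_max_left m m') hc) _
    (sums_mono _ (le_max_right m m') hc')
  have h4 : w + w' = c + c' := by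
    calc w + w' = (f w + c) + (f w' + c') := by rw [← e1, ← e2]
      _ = c + c' := by rw [← e, add_add_add_comm, two_tors hF, zero_add]
  rcases (hA _ _ h3).2 with h | h
  · rw [← h4, ← two_tors hF w] at h
    exact (add_left_cancel h).symm
  · exact absurd h.1 (hy _ (h4 ▸ y.add_mem hw.2 hw'.2))

theorem exists_obey {U : Ultrafilter E} (hfin : ∀ u : E, {u}ᶜ ∈ U) (T : ℕ → Finset E → Set E)
    (hT : ∀ n S, T n S ∈ U) : ∃ v, Obeys v T ∧ Function.Injective v := by
  have h : ∀ n (S : Finset E), ∃ w, w ∈ T n S ∧ ∀ u ∈ S, w ≠ u := fun n S =>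
    Ultrafilter.nonempty_of_mem (inter_mem (hT n S) ((eventually_all_finset S).2 fun u _ => hfin u))
  choose g hg1 hg2 using h
  let St : ℕ → Finset E := fun n =>
    Nat.rec {0} (fun n S => S ∪ S.image (· + g n S)) n
  have hSt : ∀ n, Sums (fun n => g n (St n)) n = St n := by
    intro n
    induction n with
    | zero => rfl
    | succ n ih =>
      rw [Sums, ih]
  refine ⟨fun n => g n (St n), ⟨0, fun n _ => hSt n ▸ hg1 n _⟩, ?_⟩
  have hne : ∀ i j, i < j → g j (St j) ≠ g i (St i) := fun i j hij =>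
    hg2 j _ _ (hSt j ▸ sums_mono (fun n => g n (St n)) hij (self_mem_sums _ i))
  intro i j h
  rcases lt_trichotomy i j with h' | h' | h'
  · exact absurd h.symm (hne i j h')
  · exact h'
  · exact absurd h (hne j i h')

theorem chi_inj : Function.Injective (chi : Submodule F E → E → Bool) := fun X Y h => by
  ext v
  simpa [chi] using congrFun h v

theorem no_analytic [Countable E] (hF : ∀ c : F, c = 0 ∨ c = 1) {𝒜 : Set (Submodule F E)}
    (hinf : 𝒜.Infinite) (hmad : IsMadSub 𝒜) : ¬ MeasureTheory.AnalyticSet (chi '' 𝒜) := by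
  have : Finite F := Finite.of_surjective (fun b : Bool => if b then (1 : F) else 0) fun c => by
    rcases hF c with rfl | rfl
    · exact ⟨false, rfl⟩
    · exact ⟨true, rfl⟩
  intro han
  rw [MeasureTheory.AnalyticSet] at han
  obtain ⟨y₀, hy₀⟩ := hinf.nonempty
  rcases han with h | ⟨g, hg, hr⟩
  · exact absurd (mem_image_of_mem chi hy₀) (by rw [h]; exact notMem_empty _)
  have hex : ∀ x, ∃ y ∈ 𝒜, chi y = g x := fun x => by
    have : g x ∈ chi '' 𝒜 := hr ▸ mem_range_self x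
    exact this
  choose y hy1 hy2 using hex
  have hsurj : ∀ z ∈ 𝒜, ∃ x, y x = z := fun z hz => by
    obtain ⟨x, hx⟩ : chi z ∈ range g := hr ▸ mem_image_of_mem _ hz
    exact ⟨x, chi_inj ((hy2 x).trans hx)⟩
  obtain ⟨U, hU1, hU2⟩ := exists_ultra hinf hmad.1
  have hsing : ∀ u : E, {u}ᶜ ∈ U := fun u =>
    mem_of_superset (hU2 y₀ hy₀ (-u)) fun v hv h => hv (by
      rw [show v = u from h]
      simp)
  let G : Set (ℕ → ℕ) → Prop := fun W => ∀ T : ℕ → Finset E → Set E, (∀ n S, T n S ∈ U) →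
    ∃ v, Obeys v T ∧ ∃ x ∈ W,
      ((Submodule.span F (range v) ⊓ y x : Submodule F E) : Set E).Infinite
  have hG : G univ := by
    intro T hT
    obtain ⟨v, h1, h2⟩ := exists_obey hsing T hT
    refine ⟨v, h1, ?_⟩
    by_contra hcon
    push Not at hcon
    have hZ : ¬ FiniteDimensional F (Submodule.span F (range v)) := fun h =>
      (infinite_range_of_injective h2) (((fd_iff _).1 h).subset Submodule.subset_span)
    have hfd : ∀ z ∈ 𝒜,
        FiniteDimensional F (Submodule.span F (range v) ⊓ z : Submodule F E) := by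
      intro z hz
      obtain ⟨x, rfl⟩ := hsurj z hz
      exact (fd_iff _).2 (hcon x (mem_univ _))
    have had : IsADSub (insert (Submodule.span F (range v)) 𝒜) := by
      refine ⟨?_, ?_⟩
      · rintro X (rfl | hX)
        · exact hZ
        · exact hmad.1.1 X hX
      · rintro X (rfl | hX) Z (rfl | hZ') hne
        · exact absurd rfl hne
        · exact hfd Z hZ'
        · rw [inf_comm]
          exact hfd X hX
        · exact hmad.1.2 X hX Z hZ' hne
    have hm : Submodule.span F (range v) ∈ 𝒜 :=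
      hmad.2 _ had (subset_insert _ _) ▸ mem_insert _ _
    have := hfd _ hm
    rw [inf_idem] at this
    exact hZ this
  obtain ⟨e, he⟩ := exists_surjective_nat (List ℕ)
  have hT : ∀ k, ∃ T : ℕ → Finset E → Set E, (∀ n S, T n S ∈ U) ∧
      ∀ v, Obeys v T → ∀ x, PiNat.res x (e k).length = e k →
        ((Submodule.span F (range v) ⊓ y x : Submodule F E) : Set E).Infinite →
        G {x | PiNat.res x (e k).length = e k} := by
    intro k
    by_cases h : G {x | PiNat.res x (e k).length = e k}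
    · exact ⟨fun _ _ => univ, fun _ _ => univ_mem, fun _ _ _ _ _ => h⟩
    · simp only [G] at h
      push Not at h
      obtain ⟨T, h1, h2⟩ := h
      exact ⟨T, h1, fun v hv x hx hi => absurd (h2 v hv x hx) hi⟩
  choose Tk hTk1 hTk2 using hT
  let P : Set (ℕ → ℕ) := {x | ∀ n, G (PiNat.cylinder x n)}
  have hb : ∀ W, G W → ∀ D ∈ U, ∃ x ∈ P ∩ W, ∃ w ∈ y x, w ∈ D := by
    intro W hW D hD
    obtain ⟨T, h1, h2⟩ := avoid hF hU1 hD
    obtain ⟨v, ⟨k, hk⟩, x, hx, hi⟩ := hW
      (fun n S => T n S ∩ {w | ∀ j ∈ Finset.range (n + 1), w ∈ Tk j n S}) fun n S =>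
        inter_mem (h1 n S) ((eventually_all_finset _).2 fun j _ => hTk1 j n S)
    refine ⟨x, ⟨fun n => ?_, hx⟩, ?_⟩
    · obtain ⟨j, hj⟩ := he (PiNat.res x n)
      have := hTk2 j v ⟨max k j, fun m hm => (hk m (le_of_max_le_left hm)).2 j
        (Finset.mem_range.2 (Nat.lt_succ_of_le (le_of_max_le_right hm)))⟩ x
        (by rw [hj, PiNat.res_length]) hi
      rwa [hj, PiNat.res_length, ← PiNat.cylinder_eq_res] at this
    · by_contra hcon
      push Not at hcon
      exact hi (h2 v ⟨k, fun m hm => (hk m hm).1⟩ (y x) hcon)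
  obtain ⟨x₀, ⟨hx₀, -⟩, -⟩ := hb univ hG univ univ_mem
  by_cases hall : ∀ x ∈ P, y x₀ = y x
  · obtain ⟨x, hx, w, h1, h2⟩ := hb univ hG _ (hU2 _ (hy1 x₀) 0)
    exact h2 (by simpa [hall x hx.1] using h1)
  push Not at hall
  obtain ⟨x₁, hx₁, hne⟩ := hall
  have : Infinite E := by
    rw [← not_finite_iff_infinite]
    intro _
    exact hmad.1.1 y₀ hy₀ ((fd_iff _).2 (toFinite _))
  obtain ⟨d⟩ := nonempty_denumerable E
  let φ : E ≃ ℕ := Denumerable.eqv E
  let g' : (ℕ → ℕ) → ℕ → Bool := fun x k => g x (φ.symm k)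
  have hsupp : ∀ x k, k ∈ Mad.supp (g' x) ↔ φ.symm k ∈ y x := fun x k => by
    simp [Mad.supp, g', ← hy2, chi]
  have hg'ne : ∀ x x', g' x ≠ g' x' ↔ y x ≠ y x' := fun x x' => by
    refine not_congr ⟨fun h => chi_inj ?_, fun h => ?_⟩
    · funext w
      rw [hy2, hy2]
      simpa [g'] using congrFun h (φ w)
    · funext k
      simp only [g', ← hy2, h]
  obtain ⟨u₀, hu₀, u₁, hu₁, n, hfin⟩ := Mad.separate (g := g')
    (continuous_pi fun k => (continuous_apply _).comp hg) (fun x x' h => by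
      refine Set.Finite.of_injOn (f := φ.symm) (fun k hk => ?_) φ.symm.injective.injOn
        ((fd_iff _).1 (hmad.1.2 _ (hy1 x) _ (hy1 x') ((hg'ne x x').1 h)))
      exact ⟨(hsupp x k).1 hk.1, (hsupp x' k).1 hk.2⟩) hx₀ hx₁ ((hg'ne _ _).2 hne)
  have key : ∀ u ∈ P, φ ⁻¹' (⋃ x ∈ P ∩ PiNat.cylinder u n, Mad.supp (g' x)) ∈ U := by
    intro u hu
    by_contra hcon
    obtain ⟨x, hx, w, h1, h2⟩ := hb _ (hu n) _ (Ultrafilter.compl_mem_iff_notMem.2 hcon)
    exact h2 (mem_biUnion hx ((hsupp x _).2 (by simpa using h1)))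
  have h1 := inter_mem (key u₀ hu₀) (key u₁ hu₁)
  rw [← preimage_inter] at h1
  obtain ⟨w, -, hw⟩ := Ultrafilter.eq_pure_of_finite_mem (hfin.preimage φ.injective.injOn) h1
  have := hsing w
  rw [hw] at this
  exact this rfl

end Pool.Agent.H502Z.Vec
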